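import Pool.Agent.helper44.AX.SpecG

set_option autoImplicit false

namespace Pool.Agent.AX

open Matrix Polynomial Topology Filter Pool.Agent.GO Pool.Agent.AR Pool.Agent.RG Pool.Agent.HZ
  Pool.Agent.DS Pool.Agent.FLD MeasureTheory NumberField

theorem CRA_kerV_normal {Γ R : Type*} [Group Γ] [CommRing R] {r : ℕ} {n : Fin r → ℕ}
    (V : (i : Fin r) → Γ →* Matrix (Fin (n i)) (Fin (n i)) R) : (kerV V).Normal :=
  Subgroup.normal_iInf_normal fun _ => inferInstance

theorem CRA_closed_ker {Γ R m : Type*} [Group Γ] [TopologicalSpace Γ] [CommRing R] [Fintype m]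
    [DecidableEq m] [TopologicalSpace R] [T2Space R] (V : Γ →* Matrix m m R)
    (hV : Continuous V) : IsClosed (V.ker : Set Γ) := by
  have h : (V.ker : Set Γ) = V ⁻¹' {1} := by
    ext g
    rfl
  rw [h]
  exact isClosed_singleton.preimage hV

theorem CRA_closed_adKer {Γ F : Type*} [Group Γ] [TopologicalSpace Γ] [Field F]
    [TopologicalSpace F] [T2Space F] (ρ : Γ →* Matrix (Fin 2) (Fin 2) F)
    (hρ : Continuous ρ) : IsClosed (adKer ρ : Set Γ) := by
  have h : (adKer ρ : Set Γ) = {g | ρ g 0 1 = 0} ∩ {g | ρ g 1 0 = 0} ∩ {g | ρ g 0 0 = ρ g 1 1} := by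
    ext g
    constructor
    · rintro ⟨c, hc⟩
      refine ⟨⟨?_, ?_⟩, ?_⟩ <;> simp [hc]
    · rintro ⟨⟨h1, h2⟩, h3⟩
      refine ⟨ρ g 0 0, ?_⟩
      ext i j
      fin_cases i <;> fin_cases j
      · simp
      · simpa using h1
      · simpa using h2
      · simpa using h3.symm
  rw [h]
  have hc : ∀ a b, Continuous fun g => ρ g a b := fun a b => hρ.matrix_elem a b
  exact ((isClosed_eq (hc 0 1) continuous_const).inter (isClosed_eq (hc 1 0) continuous_const)).inter
    (isClosed_eq (hc 0 0) (hc 1 1))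

theorem CRA_mem_kerV {Γ R : Type*} [Group Γ] [CommRing R] {r : ℕ} {n : Fin r → ℕ}
    (V : (i : Fin r) → Γ →* Matrix (Fin (n i)) (Fin (n i)) R) (g : Γ) :
    g ∈ kerV V ↔ ∀ i, V i g = 1 := by
  simp [kerV, Subgroup.mem_iInf, MonoidHom.mem_ker]

theorem CRA_mem_kerAll {Γ : Type*} [Group Γ] {r : ℕ} {n : Fin r → ℕ}
    (V : (q : ℕ) → [Fact q.Prime] → (i : Fin r) → Γ →* Matrix (Fin (n i)) (Fin (n i)) ℤ_[q])
    (g : Γ) : g ∈ kerAll V ↔ ∀ (q : ℕ) [Fact q.Prime] (i : Fin r), V q i g = 1 := by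
  simp only [kerAll, Subgroup.mem_iInf, CRA_mem_kerV]

theorem CRA_closed_mod {p : ℕ} [Fact p.Prime] {Γ m : Type*} [Group Γ] [TopologicalSpace Γ]
    [Fintype m] [DecidableEq m] (V : Γ →* Matrix m m ℤ_[p]) (hV : Continuous V) :
    IsClosed ((mapHom (PadicInt.toZMod (p := p)) V).ker : Set Γ) := by
  have h : ((mapHom (PadicInt.toZMod (p := p)) V).ker : Set Γ) =
      ⋂ a : m, ⋂ b : m, {g | ‖V g a b - (1 : Matrix m m ℤ_[p]) a b‖ < 1} := by
    ext g
    simp only [Set.mem_iInter, Set.mem_setOf_eq, SetLike.mem_coe, MonoidHom.mem_ker]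
    have e : ∀ x y : ℤ_[p], PadicInt.toZMod x = PadicInt.toZMod y ↔ ‖x - y‖ < 1 := by
      intro x y
      rw [← sub_eq_zero, ← map_sub, ← RingHom.mem_ker, PadicInt.ker_toZMod,
        IsLocalRing.mem_maximalIdeal, PadicInt.mem_nonunits]
    have e1 : mapHom (PadicInt.toZMod (p := p)) V g = (V g).map PadicInt.toZMod := rfl
    have e2 : (1 : Matrix m m (ZMod p)) = (1 : Matrix m m ℤ_[p]).map PadicInt.toZMod := by
      rw [Matrix.map_one _ (map_zero _) (map_one _)]
    rw [e1, e2]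
    constructor
    · intro hg a b
      have := congrFun (congrFun hg a) b
      simp only [Matrix.map_apply] at this
      exact (e _ _).1 this
    · intro hg
      ext a b
      simp only [Matrix.map_apply]
      exact (e _ _).2 (hg a b)
  rw [h]
  refine isClosed_iInter fun a => isClosed_iInter fun b => ?_
  have hc : Continuous fun g => V g a b := hV.matrix_elem a b
  have e3 : {g | ‖V g a b - (1 : Matrix m m ℤ_[p]) a b‖ < 1} =
      (fun g => V g a b) ⁻¹' Metric.ball ((1 : Matrix m m ℤ_[p]) a b) 1 := by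
    ext g
    simp [dist_eq_norm]
  rw [e3]
  exact (IsUltrametricDist.isClosed_ball _ _).preimage hc

theorem CRA (hRES : RES_stmt) (hLFT : LFT_stmt) (hYV : YV_stmt) (hYP : YP_stmt)
    (hYA : YA_stmt) : CRA_stmt := by
  intro Γ _ _ _ _ r n V hV J p _ hp F κ _ _ _ _ _ _ red hred ρ hρ hρ1 m hm hn j S hS hpm hSo
    hirr hord hM
  have hfac : 6 ≤ m.factorial := by
    have := Nat.factorial_le hm
    simpa [Nat.factorial] using this
  have hp5 : 5 ≤ p j := by omega
  have hMn := CRA_kerV_normal (fun i => mapHom (PadicInt.toZMod (p := p j)) (V (p j) i))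
  have hMc : IsClosed ((kerV fun i => mapHom (PadicInt.toZMod (p := p j)) (V (p j) i) :
      Subgroup Γ) : Set Γ) := by
    have : ((kerV fun i => mapHom (PadicInt.toZMod (p := p j)) (V (p j) i) :
      Subgroup Γ) : Set Γ) = ⋂ i, ((mapHom (PadicInt.toZMod (p := p j)) (V (p j) i)).ker : Set Γ) := by
      simp [kerV]
    rw [this]
    exact isClosed_iInter fun i => CRA_closed_mod _ (hV (p j) i)
  have hPP := hYP (p j) r n Γ (V (p j)) (hV (p j))
  let A : Type := ({q : ℕ // q.Prime ∧ q ≠ p j} × Fin r) ⊕ {k : J // k ≠ j}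
  let qq : A → ℕ := Sum.elim (fun x => x.1.1) (fun k => p k.1)
  let K : A → Subgroup Γ := Sum.elim
    (fun x => (@V x.1.1 ⟨x.1.2.1⟩ x.2).ker) (fun k => adKer (ρ k.1))
  have hA : ∀ a, (qq a).Prime ∧ qq a ≠ p j ∧ HasLayer (qq a) m (K a) := by
    rintro (⟨⟨q, hq, hqp⟩, i⟩ | ⟨k, hk⟩)
    · have : Fact q.Prime := ⟨hq⟩
      exact ⟨hq, hqp, hYV q (n i) m (hn i) Γ (V q i) (hV q i)⟩
    · have hpk : (p k).Prime := Fact.out
      exact ⟨hpk, fun h => hk (hp h),
        hYA (p k) m hm Γ (F k) (κ k) (red k) (hred k) (ρ k) (hρ k) (hρ1 k)⟩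
  obtain ⟨h1, h2, h3⟩ := hRES (p j) m hp5 hpm Γ (κ j) S hSo hirr hord _ _ hMn hMc hPP A qq K hA hM
  have hZ : (kerV (fun i => mapHom (PadicInt.toZMod (p := p j)) (V (p j) i)) ⊓ kerV (V (p j)) ⊓
      ⨅ a, K a) = kerAll V ⊓ ⨅ k : {k : J // k ≠ j}, adKer (ρ k.1) := by
    ext g
    simp only [Subgroup.mem_inf, Subgroup.mem_iInf, CRA_mem_kerV, CRA_mem_kerAll]
    constructor
    · rintro ⟨⟨-, g1⟩, g2⟩
      refine ⟨fun q hq i => ?_, fun k => g2 (Sum.inr k)⟩
      by_cases hqp : q = p j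
      · subst hqp
        exact g1 i
      · exact g2 (Sum.inl (⟨q, hq.out, hqp⟩, i))
    · rintro ⟨g1, g2⟩
      refine ⟨⟨fun i => ?_, fun i => g1 (p j) i⟩, ?_⟩
      · show (V (p j) i g).map PadicInt.toZMod = 1
        rw [g1 (p j) i, Matrix.map_one _ (map_zero _) (map_one _)]
      · rintro (⟨⟨q, hq, hqp⟩, i⟩ | k)
        · have : Fact q.Prime := ⟨hq⟩
          exact g1 q i
        · exact g2 k
  rw [hZ] at h1 h2 h3
  obtain ⟨Z, hZd⟩ : ∃ Z : Subgroup Γ, Z = kerAll V ⊓ ⨅ k : {k : J // k ≠ j}, adKer (ρ k.1) :=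
    ⟨_, rfl⟩
  have hcross : cross V ρ j = Z ⊔ adKer (ρ j) := by rw [hZd]; rfl
  rw [← hZd] at h1 h2 h3
  have hZn : Z.Normal := by
    rw [hZd]
    have n1 : (kerAll V).Normal :=
      Subgroup.normal_iInf_normal fun q => Subgroup.normal_iInf_normal fun _ =>
        CRA_kerV_normal _
    have n2 : (⨅ k : {k : J // k ≠ j}, adKer (ρ k.1)).Normal :=
      Subgroup.normal_iInf_normal fun _ => adKer_normal _
    exact Subgroup.normal_inf_normal _ _
  have hZc : IsClosed (Z : Set Γ) := by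
    have e : (Z : Set Γ) = (⋂ (q : ℕ) (_ : Fact q.Prime) (i : Fin r), ((V q i).ker : Set Γ)) ∩
        ⋂ k : {k : J // k ≠ j}, (adKer (ρ k.1) : Set Γ) := by
      rw [hZd]
      ext g
      simp only [Subgroup.coe_inf, Set.mem_inter_iff, SetLike.mem_coe, CRA_mem_kerAll,
        Subgroup.mem_iInf, Set.mem_iInter, MonoidHom.mem_ker]
    rw [e]
    refine IsClosed.inter ?_ ?_
    · exact isClosed_iInter fun q => isClosed_iInter fun _ => isClosed_iInter fun i =>
        CRA_closed_ker _ (hV q i)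
    · exact isClosed_iInter fun k => CRA_closed_adKer _ (hρ k.1)
  have hl := hLFT (p j) (by omega) Γ (F j) (κ j) (red j) (hred j) (ρ j) S (hρ j) (hρ1 j) hS Z hZn
    hZc h3
  have hle : adKer (ρ j) ≤ adKer S := by
    rintro g ⟨c, hc⟩
    refine ⟨red j c, ?_⟩
    have h0 : red j 0 = 0 := ((hred j).zero_iff 0 (by simp)).2 (by simp)
    rw [hS, hc]
    ext a b
    fin_cases a <;> fin_cases b
    · simp
    · simp [h0]
    · simp [h0]
    · simp
  have heq : Z ⊔ adKer (ρ j) = Z ⊔ adKer S :=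
    le_antisymm (sup_le_sup_left hle _) (sup_le le_sup_left hl)
  rw [hcross, heq]
  exact ⟨h1, h2⟩

end Pool.Agent.AX
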