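import Pool.Agent.helper64.AX.DPG

set_option autoImplicit false

namespace Pool.Agent.AX

open Matrix

theorem DUW_PE_inv {G : Type*} [Group G] (p : ℕ) (h : G) (hh : PE p h) : PE p h⁻¹ := by
  obtain ⟨k, hk⟩ := hh
  exact ⟨k, by rw [inv_pow, hk, inv_one]⟩

theorem DUW_trans {p : ℕ} {Z : Type} {H : Subgroup (Equiv.Perm Z)} (hF : FPA p H)
    (hst : ∀ x ∈ Om p H, ∀ h ∈ H, h x ∈ Om p H) (q : ℕ) (hfin : (Om p H).Finite)
    (hcard : (Om p H).ncard = q + 1) (x y z : Z) (hx : x ∈ Om p H)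
    (hU : (Us p H x).ncard = q) (hy : y ∈ Om p H) (hz : z ∈ Om p H) (hyx : y ≠ x)
    (hzx : z ≠ x) : ∃ h ∈ Us p H x, h y = z := by
  have hinj : Set.InjOn (fun h : Equiv.Perm Z => h y) (Us p H x) := by
    rintro a ⟨a1, a2, a3⟩ b ⟨b1, b2, b3⟩ hab
    by_contra hne
    have hab' : a y = b y := hab
    have e1 : b⁻¹ * a ∈ H := H.mul_mem (H.inv_mem b1) a1
    have bx : b⁻¹ x = x := by
      conv_lhs => rw [← b2]
      exact b.symm_apply_apply x
    have e2 : (b⁻¹ * a) x = x := by rw [Equiv.Perm.mul_apply, a2, bx]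
    have e3 : (b⁻¹ * a) y = y := by
      rw [Equiv.Perm.mul_apply, hab']
      exact b.symm_apply_apply y
    have e4 : PE p (b⁻¹ * a) := hF.mul _ (H.inv_mem b1) _ a1 x bx a2 (DUW_PE_inv p b b3) a3
    have e5 : b⁻¹ * a ≠ 1 := fun h0 => hne (inv_mul_eq_one.1 h0).symm
    obtain ⟨w, hw⟩ := hF.one _ e1 e5 e4
    exact hyx (((hw y).1 e3).trans ((hw x).1 e2).symm)
  have hsub : (fun h : Equiv.Perm Z => h y) '' (Us p H x) ⊆ Om p H \ {x} := by
    rintro _ ⟨a, ⟨a1, a2, a3⟩, rfl⟩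
    refine ⟨hst y hy a a1, ?_⟩
    intro h0
    have h1 : a y = x := h0
    exact hyx (a.injective (h1.trans a2.symm))
  have hc2 : (Om p H \ {x}).ncard = q := by
    rw [Set.ncard_diff_singleton_of_mem hx, hcard]
    rfl
  have heq := Set.eq_of_subset_of_ncard_le hsub
    (by rw [hc2, Set.ncard_image_of_injOn hinj, hU]) (hfin.subset Set.diff_subset)
  have hz' : z ∈ Om p H \ {x} := ⟨hz, hzx⟩
  rw [← heq] at hz'
  obtain ⟨h, hh, e⟩ := hz'
  exact ⟨h, hh, e⟩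

theorem DUW (hDSY : DSY_stmt) (hDFI : DFI_stmt) (hPMK : PMK_stmt) (hDPG : DPG_stmt) :
    DUW_stmt := by
  intro p _ κ _ _ _ H hp5 hfin hH hpH hNF
  have hF := hDPG p κ H hfin hH
  obtain ⟨k, e, hk, he, -, -, hOfin, hOcard, -, hcards⟩ := hDFI p (OnePoint κ) H hp5 hF hpH hNF
  obtain ⟨-, -, hst, -⟩ := hDSY p (OnePoint κ) H hF
  have hq : 2 ≤ p ^ k := by
    calc 2 ≤ p := by omega
      _ = p ^ 1 := (pow_one p).symm
      _ ≤ p ^ k := Nat.pow_le_pow_right (by omega) hk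
  -- three points
  obtain ⟨x, y, z, hx, hy, hz, hxy, hxz, hyz⟩ :
      ∃ x y z, x ∈ Om p H ∧ y ∈ Om p H ∧ z ∈ Om p H ∧ x ≠ y ∧ x ≠ z ∧ y ≠ z := by
    have h3 : 2 < (Om p H).ncard := by omega
    obtain ⟨x, y, z, hx, hy, hz, h1, h2, h3⟩ := (Set.two_lt_ncard_iff hOfin).1 h3
    exact ⟨x, y, z, hx, hy, hz, h1, h2, h3⟩
  obtain ⟨γ, hγ1, hγ0⟩ := (hPMK κ).2.2 x y hxy
  obtain ⟨h1, hh1, e1⟩ := DUW_trans hF hst (p ^ k) hOfin hOcard x y z hx (hcards x hx).1 hy hz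
    hxy.symm hxz.symm
  obtain ⟨h2, hh2, e2⟩ := DUW_trans hF hst (p ^ k) hOfin hOcard y x z hy (hcards y hy).1 hx hz
    hxy hyz.symm
  -- the coordinate of z
  obtain ⟨b, hb⟩ : ∃ b : κ, pm κ γ (b : OnePoint κ) = z := by
    have h0 : (pm κ γ).symm z ≠ OnePoint.infty := by
      intro h0
      rw [Equiv.symm_apply_eq, hγ1] at h0
      exact hxz h0.symm
    obtain ⟨b, hb⟩ := OnePoint.ne_infty_iff_exists.1 h0
    exact ⟨b, by rw [hb, Equiv.apply_symm_apply]⟩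
  have hb0 : b ≠ 0 := by
    rintro rfl
    rw [hγ0] at hb
    exact hyz hb
  obtain ⟨g1, a1, a2, a3⟩ := DPG_norm hPMK p h1 (hH h1 hh1.1) x hh1.2.1 γ hγ1
  have a4 := a3.1 hh1.2.2
  obtain ⟨w0, hw0m⟩ : ∃ w0 : GL (Fin 2) κ, (w0 : Matrix (Fin 2) (Fin 2) κ) = !![0, 1; 1, 0] :=
    ⟨GeneralLinearGroup.mkOfDetNeZero !![0, 1; 1, 0] (by simp [det_fin_two]), rfl⟩
  have hw0 : pm κ w0 OnePoint.infty = ((0 : κ) : OnePoint κ) := by
    have h10 : w0 1 0 = 1 := by rw [hw0m]; rfl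
    have h00 : w0 0 0 = 0 := by rw [hw0m]; rfl
    rw [(pm_infty w0).2 (by rw [h10]; exact one_ne_zero), h10, h00, zero_div]
  have hγw : pm κ (γ * w0) OnePoint.infty = y := by
    rw [map_mul, Equiv.Perm.mul_apply, hw0, hγ0]
  obtain ⟨g2', b1, b2, b3⟩ := DPG_norm hPMK p h2 (hH h2 hh2.1) y hh2.2.1 (γ * w0) hγw
  have b4 := b3.1 hh2.2.2
  obtain ⟨g2, hg2d⟩ : ∃ g2 : GL (Fin 2) κ, g2 = w0 * g2' * w0⁻¹ := ⟨_, rfl⟩
  have c1 : pm κ g2 = (pm κ γ)⁻¹ * h2 * pm κ γ := by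
    rw [hg2d, map_mul, map_mul, b1, map_mul, map_inv]
    group
  have hg2 : g2 * w0 = w0 * g2' := by
    rw [hg2d]
    group
  have hg2m : (g2 : Matrix (Fin 2) (Fin 2) κ) * !![0, 1; 1, 0] = !![0, 1; 1, 0] * (g2' : Matrix (Fin 2) (Fin 2) κ) := by
    have := congrArg (fun u : GL (Fin 2) κ => (u : Matrix (Fin 2) (Fin 2) κ)) hg2
    simpa only [Units.val_mul, hw0m] using this
  have m00 : g2 0 0 = g2' 1 1 := by
    have := congrFun (congrFun hg2m 0) 1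
    simpa [mul_apply, Fin.sum_univ_two] using this
  have m01 : g2 0 1 = g2' 1 0 := by
    have := congrFun (congrFun hg2m 0) 0
    simpa [mul_apply, Fin.sum_univ_two] using this
  have m10 : g2 1 0 = g2' 0 1 := by
    have := congrFun (congrFun hg2m 1) 1
    simpa [mul_apply, Fin.sum_univ_two] using this
  have m11 : g2 1 1 = g2' 0 0 := by
    have := congrFun (congrFun hg2m 1) 0
    simpa [mul_apply, Fin.sum_univ_two] using this
  -- values
  have v1 : pm κ g1 ((0 : κ) : OnePoint κ) = (b : OnePoint κ) := by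
    rw [a1]
    simp only [Equiv.Perm.mul_apply]
    rw [hγ0, e1, ← hb]
    exact (pm κ γ).symm_apply_apply _
  have v2 : pm κ g2 OnePoint.infty = (b : OnePoint κ) := by
    rw [c1]
    simp only [Equiv.Perm.mul_apply]
    rw [hγ1, e2, ← hb]
    exact (pm κ γ).symm_apply_apply _
  obtain ⟨d0, d1⟩ := DPG_diag g1 a2
  have w1 : g1 0 1 = b * g1 0 0 := by
    have hne : g1 1 0 * 0 + g1 1 1 ≠ 0 := by rw [mul_zero, zero_add]; exact d1
    rw [(pm_some g1 0).2 hne] at v1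
    have v1' := OnePoint.coe_injective v1
    rw [div_eq_iff hne, mul_zero, zero_add, mul_zero, zero_add, ← a4] at v1'
    exact v1'
  have n10 : g2 1 0 ≠ 0 := by
    intro h0
    rw [(pm_infty g2).1 h0] at v2
    exact OnePoint.infty_ne_coe _ v2
  have w2 : g2 0 0 = b * g2 1 0 := by
    rw [(pm_infty g2).2 n10] at v2
    have v2' := OnePoint.coe_injective v2
    rw [div_eq_iff n10] at v2'
    exact v2'
  obtain ⟨D, hD⟩ : ∃ D : GL (Fin 2) κ, (D : Matrix (Fin 2) (Fin 2) κ) = !![b, 0; 0, 1] :=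
    ⟨GeneralLinearGroup.mkOfDetNeZero !![b, 0; 0, 1] (by simpa [det_fin_two] using hb0), rfl⟩
  have huu : (uu κ : Matrix (Fin 2) (Fin 2) κ) = !![1, 1; 0, 1] := rfl
  have hww : (ww κ : Matrix (Fin 2) (Fin 2) κ) = !![1, 0; 1, 1] := rfl
  have k1 : pm κ (g1 * D) = pm κ (D * uu κ) := by
    rw [(hPMK κ).2.1]
    refine ⟨g1 0 0, ?_⟩
    rw [Units.val_mul, Units.val_mul, hD, huu]
    ext i j
    fin_cases i <;> fin_cases j
    · simp [mul_apply, Fin.sum_univ_two]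
    · simp [mul_apply, Fin.sum_univ_two, w1, mul_comm]
    · simp [mul_apply, Fin.sum_univ_two, a2]
    · simp [mul_apply, Fin.sum_univ_two, a4]
  have k2 : pm κ (g2 * D) = pm κ (D * ww κ) := by
    rw [(hPMK κ).2.1]
    refine ⟨g2 0 0, ?_⟩
    have m01' : g2 0 1 = 0 := by rw [m01, b2]
    have m11' : g2 1 1 = g2 0 0 := by rw [m11, m00, b4]
    rw [Units.val_mul, Units.val_mul, hD, hww]
    ext i j
    fin_cases i <;> fin_cases j
    · simp [mul_apply, Fin.sum_univ_two]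
    · simp [mul_apply, Fin.sum_univ_two, m01']
    · simp [mul_apply, Fin.sum_univ_two, w2, mul_comm]
    · simp [mul_apply, Fin.sum_univ_two, m11']
  refine ⟨γ * D, ?_, ?_⟩
  · have : pm κ (γ * D * uu κ * (γ * D)⁻¹) = h1 := by
      have e : γ * D * uu κ * (γ * D)⁻¹ = γ * (D * uu κ) * (D⁻¹ * γ⁻¹) := by group
      rw [e, map_mul, map_mul, ← k1, map_mul, map_mul, map_inv, map_inv, a1]
      group
    rw [this]
    exact hh1.1
  · have : pm κ (γ * D * ww κ * (γ * D)⁻¹) = h2 := by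
      have e : γ * D * ww κ * (γ * D)⁻¹ = γ * (D * ww κ) * (D⁻¹ * γ⁻¹) := by group
      rw [e, map_mul, map_mul, ← k2, map_mul, map_mul, map_inv, map_inv, c1]
      group
    rw [this]
    exact hh2.1

end Pool.Agent.AX
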