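import Pool.Agent.helper44.AX.SpecA
import Pool.Agent.helper5.AX.CSL

set_option autoImplicit false

namespace Pool.Agent.AX

open Matrix Polynomial Topology Filter Pool.Agent.GO Pool.Agent.AR Pool.Agent.RG Pool.Agent.HZ
  Pool.Agent.DS Pool.Agent.FLD MeasureTheory NumberField

theorem LPW_cop {G : Type*} [Group G] (L : Subgroup G) (g : G) (u v : ℕ) (h : Nat.Coprime u v)
    (hu : g ^ u ∈ L) (hv : g ^ v ∈ L) : g ∈ L := by
  have h1 : g ^ ((Nat.gcd u v : ℕ) : ℤ) ∈ L := by
    rw [Nat.gcd_eq_gcd_ab, _root_.zpow_add, _root_.zpow_mul, _root_.zpow_mul, zpow_natCast, zpow_natCast]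
    exact L.mul_mem (L.zpow_mem hu _) (L.zpow_mem hv _)
  rw [h] at h1
  simpa using h1

theorem LPW_cmt_map {G G' : Type*} [Group G] [Group G'] (f : G →* G') (L : ℕ) (x y : G) :
    f (cmt L x y) = cmt L (f x) (f y) := by
  simp [cmt]

theorem LPW_cmt_dvd {G : Type*} [Group G] (L k : ℕ) (x y : G) :
    cmt (k * L) x y = cmt L (x ^ k) (y ^ k) := by
  simp [cmt, pow_mul]

theorem LPW (hC4 : C4c_stmt) (hR2 : R2c_stmt) : LPC_stmt := by
  intro p m _ Γ _ _ _ _ M hMc A q K hA N₀ hN₀n hN₀o hpow hle x hx y hy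
  choose k i1 i2 i3 d r L hL using fun a => (hA a).2.2
  have hKa : (⨅ a, K a) = ⨅ a, ⨅ s, L a s := iInf_congr fun a => (hL a).2.2.2.2.2.2
  rw [hKa] at hle
  obtain ⟨A₀, s₀, hA₀⟩ := hR2 Γ A L (fun a => (hL a).2.1) (fun a => (hL a).2.2.2.1) M N₀ hMc hN₀o hle
  -- the intersection of the finitely many open normal subgroups
  obtain ⟨W, hW⟩ : ∃ W : Subgroup Γ, W = ⨅ a ∈ A₀, L a s₀ := ⟨_, rfl⟩
  rw [← hW] at hA₀
  have hWmem : ∀ g, g ∈ W ↔ ∀ a ∈ A₀, g ∈ L a s₀ := by
    intro g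
    rw [hW]
    simp only [Subgroup.mem_iInf]
  have hWn : W.Normal := by
    rw [hW]
    exact Subgroup.normal_iInf_normal fun a => Subgroup.normal_iInf_normal fun _ =>
      (hL a).2.2.1 s₀
  have hWo : IsOpen (W : Set Γ) := by
    have e : (W : Set Γ) = ⋂ a ∈ A₀, (L a s₀ : Set Γ) := by
      ext g
      simp only [SetLike.mem_coe, hWmem, Set.mem_iInter]
    rw [e]
    exact isOpen_biInter_finset fun a _ => (hL a).2.1 s₀
  have hWf : W.FiniteIndex := by
    have := Subgroup.quotient_finite_of_isOpen W hWo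
    exact Subgroup.finiteIndex_of_finite_quotient
  have hWsn : (W.subgroupOf M).Normal := inferInstance
  have hWsf : (W.subgroupOf M).FiniteIndex := inferInstance
  have hDfin : Finite (M ⧸ W.subgroupOf M) := inferInstance
  -- the map to the quotient by N₀
  obtain ⟨f, hf⟩ : ∃ f : (M ⧸ W.subgroupOf M) →* (Γ ⧸ N₀), ∀ g : M,
      f (QuotientGroup.mk g) = QuotientGroup.mk (g : Γ) := by
    refine ⟨QuotientGroup.lift (W.subgroupOf M) ((QuotientGroup.mk' N₀).comp M.subtype) ?_, ?_⟩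
    · intro g hg
      rw [Subgroup.mem_subgroupOf] at hg
      show (QuotientGroup.mk (g : Γ) : Γ ⧸ N₀) = 1
      rw [QuotientGroup.eq_one_iff]
      exact hA₀ ⟨g.2, hg⟩
    · intro g
      rfl
  -- a p-subgroup which maps onto everything modulo the kernel of f
  obtain ⟨P, hP, hPs⟩ := CSL p (M ⧸ W.subgroupOf M) f.ker inferInstance (by
    intro z
    induction z using QuotientGroup.induction_on with
    | H g =>
      obtain ⟨l, hl⟩ := hpow g g.2
      refine ⟨l, ?_⟩
      rw [MonoidHom.mem_ker, map_pow, hf, ← QuotientGroup.mk_pow, QuotientGroup.eq_one_iff]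
      exact hl)
  obtain ⟨x', hx', ex⟩ := hPs (QuotientGroup.mk ⟨x, hx⟩)
  obtain ⟨y', hy', ey⟩ := hPs (QuotientGroup.mk ⟨y, hy⟩)
  have fx : f x' = QuotientGroup.mk x := by
    rw [MonoidHom.mem_ker, map_mul, map_inv, hf, inv_mul_eq_one] at ex
    exact ex.symm
  have fy : f y' = QuotientGroup.mk y := by
    rw [MonoidHom.mem_ker, map_mul, map_inv, hf, inv_mul_eq_one] at ey
    exact ey.symm
  have hPg : IsPGroup p P := by
    intro g
    obtain ⟨l, hl⟩ := hP g.1 g.2
    exact ⟨l, Subtype.ext (by simpa using hl)⟩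
  have hc : cmt m.factorial x' y' = 1 := by
    obtain ⟨g, hg⟩ := QuotientGroup.mk_surjective (cmt m.factorial x' y')
    obtain ⟨l, hl⟩ : PE p (cmt m.factorial x' y') := by
      apply hP
      exact P.mul_mem (P.mul_mem (P.mul_mem (P.pow_mem hx' _) (P.pow_mem hy' _))
        (P.inv_mem (P.pow_mem hx' _))) (P.inv_mem (P.pow_mem hy' _))
    rw [← hg, QuotientGroup.eq_one_iff, Subgroup.mem_subgroupOf, hWmem]
    intro a ha
    have hWa : W ≤ L a s₀ := fun z hz => (hWmem z).1 hz a ha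
    let _ := i1 a
    let _ := i2 a
    let _ := i3 a
    obtain ⟨ra, hra⟩ : ∃ ra : (M ⧸ W.subgroupOf M) →* Matrix (Fin (d a)) (Fin (d a)) (k a),
        ∀ g : M, ra (QuotientGroup.mk g) = r a g := by
      refine ⟨QuotientGroup.lift (W.subgroupOf M) ((r a).comp M.subtype) ?_, ?_⟩
      · intro g hg
        rw [Subgroup.mem_subgroupOf] at hg
        exact (hL a).2.2.2.2.1 s₀ g (hWa hg)
      · intro g
        rfl
    have hpne : (p : k a) ≠ 0 := by
      intro h0
      rw [CharP.cast_eq_zero_iff (k a) (q a)] at h0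
      exact (hA a).2.1 ((Nat.prime_dvd_prime_iff_eq (hA a).1 Fact.out).1 h0)
    obtain ⟨e, he⟩ : (d a).factorial ∣ m.factorial := Nat.factorial_dvd_factorial (hL a).1
    have hone : r a g = 1 := by
      rw [← hra, hg, he, mul_comm, LPW_cmt_dvd]
      have := hC4 p (d a) P hPg (k a) hpne (ra.comp P.subtype) (⟨x', hx'⟩ ^ e) (⟨y', hy'⟩ ^ e)
      exact this
    obtain ⟨w, hw⟩ := (hL a).2.2.2.2.2.1 g hone s₀
    refine LPW_cop (L a s₀) g (q a ^ w) (p ^ l) ?_ hw ?_
    · exact Nat.Coprime.pow _ _ ((Nat.coprime_primes (hA a).1 Fact.out).2 (hA a).2.1)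
    · rw [← hg, ← QuotientGroup.mk_pow, QuotientGroup.eq_one_iff, Subgroup.mem_subgroupOf] at hl
      exact hWa hl
  have h9 : f (cmt m.factorial x' y') = QuotientGroup.mk (cmt m.factorial x y) := by
    rw [LPW_cmt_map, fx, fy]
    exact (LPW_cmt_map (QuotientGroup.mk' N₀) m.factorial x y).symm
  rw [hc, map_one] at h9
  exact (QuotientGroup.eq_one_iff _).1 h9.symm

end Pool.Agent.AX
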