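import Pool.Agent.helper64.AX.SpecD

/-!
# Project AX (MP_2e0e07_nt), block R: layers, large primes

Project: the adelic dichotomy of helper44 (`/team-store/H6_MP_2e0e07_nt_ADELIC_helper44.md`, section 4).

RULES. Row `ax:XX`: file `Pool/Agent/<seat>/AX/XX.lean`, `import Pool.Agent.helper64.AX.SpecR`, `set_option autoImplicit false`,
`namespace Pool.Agent.AX`, `open Matrix`, auxiliary lemmas prefixed `XX_`, theorem line as in the lock note (other rows only as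
hypotheses). No straight double quotes, no convert / congr!. Finish: land, note DONE + path, one line to helper64.
-/

set_option autoImplicit false

namespace Pool.Agent.AX

open Matrix
open scoped commutatorElement

/-- **C4** (short; from CLW). `R' = σ.toHomUnits.range` is a finite subgroup of `GL_m(κ)` whose elements have `PE p` (`IsPGroup p R`). By CLW `σ(x)^(m!)` and `σ(y)^(m!)` commute; `σ` of the commutator is `1` (`open scoped commutatorElement`, `commutatorElement_def`). -/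
def C4_stmt : Prop := ∀ (p m : ℕ) [Fact p.Prime] (R : Type) [Group R] [Finite R], IsPGroup p R → ∀ (κ : Type) [Field κ] [IsAlgClosed κ],
  (p : κ) ≠ 0 → ∀ σ : R →* Matrix (Fin m) (Fin m) κ, ∀ x y : R, σ ⁅x ^ m.factorial, y ^ m.factorial⁆ = 1

/-- **R2** (short; only Mathlib). COMPACTNESS. `M - N₀` is compact (closed in a compact space). Each of its points is outside some `L a s`, whose complement is open (an open subgroup is closed: `Subgroup.isClosed_of_isOpen`). Finite subcover (`IsCompact.elim_finite_subcover` over pairs `(a, s)`);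
`A₀` = first components, `s₀` = maximum of the second ones; `L a s₀ ≤ L a s` for `s ≤ s₀`. -/
def R2_stmt : Prop := ∀ (Γ : Type) [Group Γ] [TopologicalSpace Γ] [IsTopologicalGroup Γ] [CompactSpace Γ] (A : Type) (L : A → ℕ → Subgroup Γ),
  (∀ a s, IsOpen (L a s : Set Γ)) → (∀ a, Antitone (L a)) → ∀ M N₀ : Subgroup Γ, IsClosed (M : Set Γ) → IsOpen (N₀ : Set Γ) →
  (M ⊓ ⨅ a, ⨅ s, L a s) ≤ N₀ → ∃ (A₀ : Finset A) (s₀ : ℕ), M ⊓ ⨅ a ∈ A₀, L a s₀ ≤ N₀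

/-- **RPR** (short; only Mathlib). `u` has order `p` (`orderOf_eq_prime`). Let `g` be a natural number whose class generates `(ZMod p)ˣ` (`IsCyclic`, order `p - 1`: `ZMod.card_units`). `u ^ g ^ N = u` gives `g ^ N ≡ 1` modulo `p` (`pow_eq_pow_iff_modEq`), so `p - 1 ∣ N` (`orderOf_dvd_iff_pow_eq_one`). -/
def RPR_stmt : Prop := ∀ (p : ℕ) [Fact p.Prime] (G : Type) [Group G] (u : G) (N : ℕ), u ^ p = 1 → u ≠ 1 →
  (∀ g : ℕ, ¬ p ∣ g → u ^ g ^ N = u) → p - 1 ∣ N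

/-- **RFQ** (short-medium; from CCR). `Q = ⨅ a, L a` is normal and of finite index. Apply CCR to `D = M ⧸ (Q.subgroupOf M)` (finite), `f : D →* G'` induced by `φ` (`QuotientGroup.lift`; `M ⊓ Q ≤ φ.ker`), `r a : D →* GL` induced by `(r a).toHomUnits` (trivial on `L a ≥ Q`), `K a` = the image of `(L a).subgroupOf M` in `D` (normal;
the class of `g ∈ M` is in `K a` iff `g ∈ L a`, because `Q ≤ L a`). -/
def RFQ_stmt : Prop := ∀ (p : ℕ) [Fact p.Prime] (m : ℕ) (Γ G' : Type) [Group Γ] [Group G'] (ι : Type) [Finite ι] (q d : ι → ℕ) (κ : ι → Type)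
  [∀ a, Field (κ a)] [∀ a, IsAlgClosed (κ a)] [∀ a, CharP (κ a) (q a)] (r : ∀ a, Γ →* Matrix (Fin (d a)) (Fin (d a)) (κ a)) (L : ι → Subgroup Γ)
  (φ : Γ →* G') (M : Subgroup Γ) (u t : G') (s : ℕ),
  m < p → (∀ a, d a ≤ m) → (∀ a, (q a).Prime ∧ q a ≠ p) → (∀ a, (L a).Normal) → (∀ a, (L a).FiniteIndex) →
  (∀ a, ∀ g ∈ L a, r a g = 1) → (∀ a g, r a g = 1 → ∃ k : ℕ, g ^ q a ^ k ∈ L a) → M ⊓ ⨅ a, L a ≤ φ.ker → u ∈ M.map φ → t ∈ M.map φ →
  u ^ p = 1 → t * u * t⁻¹ = u ^ s → u ^ s ^ m.factorial = u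

/-- **RNT** (medium; from R2, RFQ, RPR, DNP, DNO, DPG, DUW, DTO). THE MAIN STEP for large `p`. `H = φ.range` is finite (`φ.ker` is open in a compact group) and satisfies `FPA` (DPG). `N₁ = M.map φ ≠ ⊥` is normal in `H`; DNO: `p ∣ #N₁`, `NoFix N₁`; DUW and DTO for `N₁`: `u ∈ N₁`, `u^p = 1`, `u ≠ 1`,
and for every `g` prime to `p` some `t ∈ N₁` with `t u t⁻¹ = u^(g²)`. Suppose `M ⊓ (⨅ s, Lp s) ⊓ ⨅ a, ⨅ s, L a s ≤ φ.ker`. R2 for the index set `Option A`: a finite set `A₁` of indices and `s₀` with `M ⊓ Lp s₀ ⊓ ⨅ a ∈ A₁, L a s₀ ≤ φ.ker`. `Q = M ⊓ ⨅ a ∈ A₁, L a s₀` is normal in `Γ`; for `g ∈ Q` some `g^(p^k)` is in `Lp s₀`,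
so in `φ.ker`: `φ(Q)` consists of elements with `PE p` and is normal in `H`, so it is trivial (DNP). RFQ for the family `A₁`, `s = g²`: `u^(g^(2 m!)) = u` for all `g` prime to `p`. RPR: `p - 1 ∣ 2 m!`, contradiction to `2 m! + 1 < p`. (`m < p` as `m ≤ m!`.) -/
def RNT_stmt : Prop := ∀ (p m : ℕ) [Fact p.Prime], 5 ≤ p → 2 * m.factorial + 1 < p →
  ∀ (Γ : Type) [Group Γ] [TopologicalSpace Γ] [IsTopologicalGroup Γ] [CompactSpace Γ] (κ : Type) [Field κ] [IsAlgClosed κ] [CharP κ p]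
  (φ : Γ →* Equiv.Perm (OnePoint κ)), IsOpen (φ.ker : Set Γ) → (∀ g, ∃ h : GL (Fin 2) κ, pm κ h = φ g) → p ∣ Nat.card φ.range → NoFix φ.range →
  ∀ M : Subgroup Γ, M.Normal → IsClosed (M : Set Γ) → ¬ M ≤ φ.ker →
  ∀ Lp : ℕ → Subgroup Γ, (∀ s, IsOpen (Lp s : Set Γ)) → (∀ s, (Lp s).Normal) → Antitone Lp → (∀ g ∈ M, ∀ s, ∃ k, g ^ p ^ k ∈ Lp s) →
  ∀ (A : Type) (q d : A → ℕ) (k : A → Type) [∀ a, Field (k a)] [∀ a, IsAlgClosed (k a)] [∀ a, CharP (k a) (q a)]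
  (r : ∀ a, Γ →* Matrix (Fin (d a)) (Fin (d a)) (k a)) (L : A → ℕ → Subgroup Γ),
  (∀ a, (q a).Prime ∧ q a ≠ p ∧ d a ≤ m) → (∀ a s, IsOpen (L a s : Set Γ)) → (∀ a s, (L a s).Normal) → (∀ a, Antitone (L a)) →
  (∀ a s, ∀ g ∈ L a s, r a g = 1) → (∀ a g, r a g = 1 → ∀ s, ∃ k : ℕ, g ^ q a ^ k ∈ L a s) →
  ¬ (M ⊓ (⨅ s, Lp s) ⊓ ⨅ a, ⨅ s, L a s ≤ φ.ker)

end Pool.Agent.AX
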