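import Pool.Agent.helper44.AX.SpecG
import Pool.Agent.helper64.AX.SpecR

set_option autoImplicit false

namespace Pool.Agent.AX

open Matrix Pool.Agent.GO Pool.Agent.HZ

theorem RES_line {Γ κ : Type} [Group Γ] [Field κ] (S : Γ →* Matrix (Fin 2) (Fin 2) κ)
    (hirr : Irred (fun g => S g)) (v : Fin 2 → κ) (hv : v ≠ 0) :
    ∃ g : Γ, ∀ c : κ, S g *ᵥ v ≠ c • v := by
  by_contra hcon
  push Not at hcon
  have hst : ∀ g, ∀ u ∈ Submodule.span κ {v}, S g *ᵥ u ∈ Submodule.span κ {v} := by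
    intro g u hu
    obtain ⟨a, rfl⟩ := Submodule.mem_span_singleton.1 hu
    obtain ⟨c, hc⟩ := hcon g
    rw [mulVec_smul, hc]
    exact Submodule.smul_mem _ _ (Submodule.smul_mem _ _ (Submodule.mem_span_singleton_self v))
  rcases hirr.2 _ hst with h | h
  · exact hv (Submodule.span_singleton_eq_bot.1 h)
  · have h1 := finrank_span_singleton (K := κ) hv
    rw [h, finrank_top, Module.finrank_fin_fun] at h1
    omega

theorem RES (hRNT : RNT_stmt) (hDNO : DNO_stmt) (hDUW : DUW_stmt) (hDPG : DPG_stmt)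
    (hPMK : PMK_stmt) (hDRS : DRS_stmt) : RES_stmt := by
  intro p m _ hp5 hpm Γ _ _ _ _ κ _ _ _ S hSo hirr hord M Kp hMn hMc hPP A q K hA hMS
  obtain ⟨T, hT⟩ : ∃ T : Γ →* GL (Fin 2) κ, ∀ g, (T g : Matrix (Fin 2) (Fin 2) κ) = S g :=
    ⟨S.toHomUnits, fun g => MonoidHom.coe_toHomUnits S g⟩
  obtain ⟨φ, hφ⟩ : ∃ φ : Γ →* Equiv.Perm (OnePoint κ), φ = (pm κ).comp T := ⟨_, rfl⟩
  have hφ' : ∀ g, φ g = pm κ (T g) := fun g => by rw [hφ]; rfl
  have hker : φ.ker = adKer S := by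
    ext g
    rw [MonoidHom.mem_ker, hφ', (hPMK κ).1, mem_adKer, hT]
  have hTker : ∀ g, T g = 1 ↔ g ∈ S.ker := by
    intro g
    rw [MonoidHom.mem_ker, ← hT, Units.val_eq_one]
  have hfinS : Finite (Γ ⧸ S.ker) := Subgroup.quotient_finite_of_isOpen _ hSo
  have hTk : T.ker = S.ker := by
    ext g
    rw [MonoidHom.mem_ker, hTker]
  have hTfin : (Set.range T).Finite := by
    rw [← hTk] at hfinS
    have h1 : Finite T.range := Finite.of_equiv _ (QuotientGroup.quotientKerEquivRange T).toEquiv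
    exact Set.toFinite (T.range : Set (GL (Fin 2) κ))
  obtain ⟨hfin, hdvd, hNF⟩ := hDRS p κ Γ T hTfin (fun v hv => by
    obtain ⟨g, hg⟩ := RES_line S hirr v hv
    exact ⟨g, fun c => by rw [hT]; exact hg c⟩) (by
    obtain ⟨g, hg⟩ := hord
    exact ⟨g, by rw [← hg, ← hT, orderOf_units]⟩)
  rw [← hφ] at hfin hdvd hNF
  have hpre : ∀ g, ∃ h : GL (Fin 2) κ, pm κ h = φ g := fun g => ⟨T g, (hφ' g).symm⟩
  have hpre' : ∀ h ∈ φ.range, ∃ g : GL (Fin 2) κ, pm κ g = h := by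
    rintro _ ⟨g, rfl⟩
    exact hpre g
  have hF := hDPG p κ φ.range hfin hpre'
  have hφo : IsOpen (φ.ker : Set Γ) := by
    refine Subgroup.isOpen_mono (H₁ := S.ker) ?_ hSo
    intro g hg
    rw [MonoidHom.mem_ker, hφ', (hTker g).2 hg, map_one]
  obtain ⟨Lp, hLp1, hLp2, hLp3, hLp4, rfl⟩ := hPP
  choose k i1 i2 i3 d r L hL using fun a => (hA a).2.2
  have hMk : ¬ M ≤ φ.ker := by
    intro h
    obtain ⟨g, hg, hg'⟩ := hMS
    rw [← hker] at hg'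
    exact hg' (h hg)
  have hKa : (⨅ a, K a) = ⨅ a, ⨅ s, L a s := iInf_congr fun a => (hL a).2.2.2.2.2.2
  rw [hKa]
  have hmain := @hRNT p m _ hp5 hpm Γ _ _ _ _ κ _ _ _ φ hφo hpre hdvd hNF M hMn hMc hMk Lp hLp1
    hLp2 hLp3 hLp4 A q d k i1 i2 i3 r L
    (fun a => ⟨(hA a).1, (hA a).2.1, (hL a).1⟩) (fun a => (hL a).2.1) (fun a => (hL a).2.2.1)
    (fun a => (hL a).2.2.2.1) (fun a => (hL a).2.2.2.2.1) (fun a => (hL a).2.2.2.2.2.1)
  obtain ⟨Z, hZ⟩ : ∃ Z : Subgroup Γ, Z = M ⊓ (⨅ s, Lp s) ⊓ ⨅ a, ⨅ s, L a s := ⟨_, rfl⟩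
  rw [← hZ] at hmain ⊢
  have hZn : Z.Normal := by
    rw [hZ]
    have n1 : (⨅ s, Lp s).Normal := Subgroup.normal_iInf_normal hLp2
    have n2 : (⨅ a, ⨅ s, L a s).Normal :=
      Subgroup.normal_iInf_normal fun a => Subgroup.normal_iInf_normal fun s => (hL a).2.2.1 s
    exact Subgroup.normal_inf_normal _ _
  have hNne : Z.map φ ≠ ⊥ := by
    intro h
    exact hmain ((Subgroup.map_eq_bot_iff _).1 h)
  have hNle : Z.map φ ≤ φ.range := by
    rintro _ ⟨g, -, rfl⟩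
    exact ⟨g, rfl⟩
  obtain ⟨hd1, hd2, hd3⟩ := hDNO p (OnePoint κ) φ.range (Z.map φ) hp5 hF hdvd hNF hNle hNne (by
    rintro _ ⟨g, rfl⟩ _ ⟨z, hz, rfl⟩
    exact ⟨g * z * g⁻¹, hZn.conj_mem z hz g, by rw [map_mul, map_mul, map_inv]⟩)
  have hcard : (Z.map φ).relIndex φ.range * Nat.card (Z.map φ) = Nat.card φ.range := by
    have h1 := Subgroup.relIndex_mul_relIndex (⊥ : Subgroup (Equiv.Perm (OnePoint κ))) (Z.map φ) φ.range bot_le hNle
    rw [Subgroup.relIndex_bot_left, Subgroup.relIndex_bot_left] at h1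
    rw [← h1, mul_comm]
  have hidx : (Z ⊔ adKer S).index = (Z.map φ).relIndex φ.range := by
    rw [← hker, ← Subgroup.comap_map_eq, Subgroup.index_comap]
  have hpos : 0 < Nat.card φ.range := by
    have : Finite φ.range := hfin
    exact Nat.card_pos
  have hposN : 0 < Nat.card (Z.map φ) := by
    by_contra h0
    rw [Nat.eq_zero_of_not_pos h0, mul_zero] at hcard
    omega
  refine ⟨?_, ?_, ?_⟩
  · rw [hidx]
    intro h0
    rw [h0, zero_mul] at hcard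
    omega
  · rw [hidx]
    rw [← hcard] at hd3
    exact Nat.le_of_mul_le_mul_right hd3 hposN
  · have hfN : ((Z.map φ : Subgroup (Equiv.Perm (OnePoint κ))) : Set (Equiv.Perm (OnePoint κ))).Finite :=
      hfin.subset hNle
    obtain ⟨γ, ⟨z1, hz1, e1⟩, ⟨z2, hz2, e2⟩⟩ := hDUW p κ (Z.map φ) hp5 hfN
      (fun h hh => hpre' h (hNle hh)) hd1 hd2
    refine ⟨(γ : Matrix (Fin 2) (Fin 2) κ), ((γ⁻¹ : GL (Fin 2) κ) : Matrix (Fin 2) (Fin 2) κ),
      Units.mul_inv γ, Units.inv_mul γ, ⟨z1, hz1, ?_⟩, ⟨z2, hz2, ?_⟩⟩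
    · rw [hφ', (hPMK κ).2.1] at e1
      obtain ⟨c, hc⟩ := e1
      exact ⟨c, by rw [← hT, hc, Units.val_mul, Units.val_mul]; rfl⟩
    · rw [hφ', (hPMK κ).2.1] at e2
      obtain ⟨c, hc⟩ := e2
      exact ⟨c, by rw [← hT, hc, Units.val_mul, Units.val_mul]; rfl⟩

end Pool.Agent.AX
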