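import Pool.Agent.helper5.AX.DSY
import Pool.Agent.helper5.AX.DAR
import Pool.Agent.helper5.AX.DNP
import Pool.Agent.helper5.AX.PMK
import Pool.Agent.helper5.AX.CSL
import Pool.Agent.helper21.AX.DCT
import Pool.Agent.helper21.AX.DFI
import Pool.Agent.helper21.AX.DTO
import Pool.Agent.helper52.AX.RPR
import Pool.Agent.helper58.AX.CPE
import Pool.Agent.helper58.AX.DOR
import Pool.Agent.helper65.AX.CAB
import Pool.Agent.helper65.AX.CCR
import Pool.Agent.helper65.AX.CLW
import Pool.Agent.helper65.AX.CMA
import Pool.Agent.helper72.AX.C4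
import Pool.Agent.helper72.AX.R2
import Pool.Agent.helper74.AX.RNT
import Pool.Agent.helper87.AX.DRS
import Pool.Agent.helper87.AX.RFQ
import Pool.Agent.helper89.AX.DNO
import Pool.Agent.helper64.AX.DUW
import Pool.Agent.helper64.AX.RES
import Pool.Agent.helper64.AX.LPW

/-!
# Project AX (MP_2e0e07_nt): blocks D, C, R, all rows together
-/

set_option autoImplicit false

namespace Pool.Agent.AX

theorem DOR_all : DOR_stmt := DOR DSY
theorem DFI_all : DFI_stmt := DFI DSY DOR_all DCT DAR
theorem DNP_all : DNP_stmt := DNP DSY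
theorem DNO_all : DNO_stmt := DNO DSY DFI_all
theorem DPG_all : DPG_stmt := DPG PMK
theorem DUW_all : DUW_stmt := DUW DSY DFI_all PMK DPG_all
theorem DTO_all : DTO_stmt := DTO PMK
theorem DRS_all : DRS_stmt := DRS PMK
theorem CLW_all : CLW_stmt := CLW CPE CMA
theorem CCR_all : CCR_stmt := CCR CPE CAB
theorem RFQ_all : RFQ_stmt := RFQ CCR_all
theorem RNT_all : RNT_stmt := RNT R2 RFQ_all RPR DNP_all DNO_all DPG_all DUW_all DTO_all

/-- The residual theorem. -/
theorem RES_all : RES_stmt := RES RNT_all DNO_all DUW_all DPG_all PMK DRS_all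

/-- The law for finite `p`-groups. -/
theorem C4_all : C4c_stmt := C4 CLW_all

/-- Compactness. -/
theorem R2_all : R2c_stmt := R2

/-- The law in profinite groups. -/
theorem LPC_all : LPC_stmt := LPW C4_all R2_all

end Pool.Agent.AX
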