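import Pool.Agent.helper44.AX.SpecA
import Pool.Agent.helper37.RG.BUR

set_option autoImplicit false

namespace Pool.Agent.AX

open Matrix Polynomial Topology Filter Pool.Agent.GO Pool.Agent.AR Pool.Agent.RG Pool.Agent.HZ
  Pool.Agent.DS Pool.Agent.FLD MeasureTheory NumberField

/-- a `2 × 2` matrix which satisfies `tr = 0` or is scalar has a scalar square -/
theorem LWC_sq {F : Type*} [Field F] (X : Matrix (Fin 2) (Fin 2) F)
    (h : X.trace = 0 ∨ ∃ c : F, X = c • 1) : ∃ c : F, X * X = c • 1 := by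
  rcases h with h | ⟨c, rfl⟩
  · rw [trace_fin_two] at h
    have h' : X 1 1 = - X 0 0 := by linear_combination h
    refine ⟨X 0 0 * X 0 0 + X 0 1 * X 1 0, ?_⟩
    ext i j
    fin_cases i <;> fin_cases j <;> simp [mul_apply, Fin.sum_univ_two, h'] <;> ring
  · exact ⟨c * c, by rw [smul_mul_smul_comm, one_mul]⟩

/-- the step: the `L`-th powers are scalar or of trace zero -/
theorem LWC_step {Ω Γ : Type} [Field Ω] [IsAlgClosed Ω] [CharZero Ω] [Group Γ]
    (ρ : Γ →* Matrix (Fin 2) (Fin 2) Ω) (hSI : SI ρ) (L : ℕ)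
    (hlaw : ∀ x y : Γ, cmt L x y ∈ adKer ρ) (x : Γ) :
    (ρ (x ^ L)).trace = 0 ∨ ∃ c : Ω, ρ (x ^ L) = c • 1 := by
  by_cases htr : (ρ (x ^ L)).trace = 0
  · exact Or.inl htr
  right
  obtain ⟨X, hX⟩ : ∃ X, X = ρ (x ^ L) := ⟨_, rfl⟩
  rw [← hX] at htr ⊢
  -- all conjugates commute with X
  have hcomm : ∀ g, X * (ρ g * X * ρ g⁻¹) = (ρ g * X * ρ g⁻¹) * X := by
    intro g
    obtain ⟨c, hc⟩ := hlaw x (g * x * g⁻¹)
    have hy : (g * x * g⁻¹) ^ L = g * x ^ L * g⁻¹ := conj_pow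
    have hYd : ρ ((g * x * g⁻¹) ^ L) = ρ g * X * ρ g⁻¹ := by
      rw [hy, map_mul, map_mul, hX]
    obtain ⟨Y, hY⟩ : ∃ Y, Y = ρ g * X * ρ g⁻¹ := ⟨_, rfl⟩
    rw [← hY] at hYd ⊢
    have h1 : X * Y = c • (Y * X) := by
      have h2 : ρ (x ^ L * (g * x * g⁻¹) ^ L) = ρ (cmt L x (g * x * g⁻¹)) *
          ρ ((g * x * g⁻¹) ^ L * x ^ L) := by
        rw [← map_mul]
        congr 1
        unfold cmt
        group
      rw [hc, map_mul, map_mul, hYd, ← hX, smul_mul_assoc, one_mul] at h2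
      exact h2
    have h3 : X * ρ (x ^ L)⁻¹ = 1 := by rw [hX, hom_mul_inv']
    have h4 : ρ (x ^ L)⁻¹ * X = 1 := by rw [hX, hom_inv_mul']
    have h5 : (X * Y * ρ (x ^ L)⁻¹).trace = Y.trace := by
      rw [trace_mul_comm, ← mul_assoc, h4, one_mul]
    have h6 : Y.trace = X.trace := by rw [hY, AR.trace_conj]
    have h7 : Y.trace = c * Y.trace := by
      conv_lhs => rw [← h5, h1]
      rw [smul_mul_assoc, trace_smul, mul_assoc, h3, mul_one, smul_eq_mul]
    have h8 : c = 1 := by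
      have h9 : Y.trace ≠ 0 := by rw [h6]; exact htr
      have h10 : Y.trace * (c - 1) = 0 := by linear_combination (-1 : Ω) * h7
      exact sub_eq_zero.1 ((mul_eq_zero.1 h10).resolve_left h9)
    rw [h1, h8, one_smul]
  by_contra hns
  push Not at hns
  obtain ⟨X₀, hX₀⟩ : ∃ X₀, X₀ = X - (X.trace / 2) • (1 : Matrix (Fin 2) (Fin 2) Ω) := ⟨_, rfl⟩
  have h2 : (2 : Ω) ≠ 0 := two_ne_zero
  have htr0 : X₀.trace = 0 := by
    rw [hX₀, trace_sub, trace_smul, trace_one, Fintype.card_fin, smul_eq_mul]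
    push_cast
    field_simp
    ring
  have hne : X₀ ≠ 0 := by
    intro h0
    rw [hX₀, sub_eq_zero] at h0
    exact hns _ h0
  refine no_line ρ hSI X₀ hne htr0 fun g => ?_
  have hY0 : ρ g * X₀ * ρ g⁻¹ = ρ g * X * ρ g⁻¹ - (X.trace / 2) • 1 := by
    rw [hX₀, mul_sub, sub_mul, mul_smul_comm, mul_one, smul_mul_assoc, hom_mul_inv']
  have hc0 : X₀ * (ρ g * X₀ * ρ g⁻¹) = (ρ g * X₀ * ρ g⁻¹) * X₀ := by
    rw [hY0]
    rw [hX₀]
    simp only [sub_mul, mul_sub, mul_smul_comm, smul_mul_assoc, mul_one, one_mul]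
    rw [hcomm g]
    simp only [smul_sub, smul_smul]
    abel
  have hco : em (co X₀) = X₀ := em_co htr0
  have htY : (ρ g * X₀ * ρ g⁻¹).trace = 0 := by rw [AR.trace_conj, htr0]
  have hcoY : em (co (ρ g * X₀ * ρ g⁻¹)) = ρ g * X₀ * ρ g⁻¹ := em_co htY
  obtain ⟨c, hc⟩ := comm_dep (co X₀) (co (ρ g * X₀ * ρ g⁻¹)) (by
    intro h0
    apply hne
    rw [← hco, h0]
    ext i j
    fin_cases i <;> fin_cases j <;> simp [AR.em]) (by rw [hco, hcoY]; exact hc0)
  refine ⟨c, ?_⟩
  have h9 : ρ g * X₀ * ρ g⁻¹ = c • X₀ := by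
    rw [← hcoY, hc, em_smul, hco]
  calc ρ g * X₀ = (ρ g * X₀ * ρ g⁻¹) * ρ g := by rw [mul_assoc, hom_inv_mul', mul_one]
    _ = c • (X₀ * ρ g) := by rw [h9, smul_mul_assoc]

theorem LWC_ad0_scalar {Ω Γ : Type} [Field Ω] [Group Γ] (ρ : Γ →* Matrix (Fin 2) (Fin 2) Ω)
    (g : Γ) (c : Ω) (h : ρ g = c • 1) : ad0 ρ g = 1 := by
  have h1 : ∀ v, ad0 ρ g *ᵥ v = v := by
    intro v
    apply em_injective
    rw [em_ad0]
    have h2 := hom_mul_inv' ρ g
    rw [h] at h2 ⊢
    rw [smul_mul_assoc, one_mul] at h2 ⊢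
    rw [smul_mul_assoc, ← mul_smul_comm, h2, mul_one]
  ext i j
  have h3 := congrFun (h1 (Pi.single j 1)) i
  rw [mulVec_single_one] at h3
  rw [show ad0 ρ g i j = (ad0 ρ g).col j i from rfl, h3, Matrix.one_apply, Pi.single_apply]

/-- the traces of the matrices `M` of size three with `M ^ N = 1` are in a finite set -/
theorem LWC_trace_finite {Ω : Type} [Field Ω] [IsAlgClosed Ω] (N : ℕ) (hN : 0 < N) :
    ∃ E : Set Ω, E.Finite ∧ ∀ M : Matrix (Fin 3) (Fin 3) Ω, M ^ N = 1 → M.trace ∈ E := by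
  classical
  let R : Set Ω := {z | z ^ N = 1}
  have hR : R.Finite := by
    have : R ⊆ ((nthRoots N (1 : Ω)).toFinset : Set Ω) := by
      intro z hz
      simp only [Finset.mem_coe, Multiset.mem_toFinset, mem_nthRoots hN]
      exact hz
    exact (Finset.finite_toSet _).subset this
  refine ⟨(fun t : Ω × Ω × Ω => t.1 + (t.2.1 + t.2.2)) '' (R ×ˢ R ×ˢ R),
    (hR.prod (hR.prod hR)).image _, fun M hM => ?_⟩
  rw [trace_eq_sum_roots_charpoly]
  have hcard : Multiset.card M.charpoly.roots = 3 := by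
    rw [IsAlgClosed.card_roots_eq_natDegree, charpoly_natDegree_eq_dim, Fintype.card_fin]
  have hroot : ∀ z ∈ M.charpoly.roots, z ∈ R := by
    intro z hz
    rw [mem_roots (charpoly_monic M).ne_zero] at hz
    obtain ⟨v, hv, hv'⟩ := (isRoot_iff_exists _ _).mp hz
    have h1 : ∀ n : ℕ, M ^ n *ᵥ v = z ^ n • v := by
      intro n
      induction n with
      | zero => simp
      | succ n ih => rw [pow_succ, ← mulVec_mulVec, hv', mulVec_smul, ih, smul_smul, pow_succ,
          mul_comm]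
    have h2 := h1 N
    rw [hM, one_mulVec] at h2
    obtain ⟨i, hi⟩ := Function.ne_iff.1 hv
    have h3 := congrFun h2 i
    rw [Pi.smul_apply, smul_eq_mul] at h3
    have h4 : (z ^ N - 1) * v i = 0 := by linear_combination (-1 : Ω) * h3
    exact sub_eq_zero.1 ((mul_eq_zero.1 h4).resolve_right hi)
  obtain ⟨a, b, c, habc⟩ := Multiset.card_eq_three.1 hcard
  rw [habc] at hroot ⊢
  refine ⟨(a, b, c), ⟨hroot a (by simp), hroot b (by simp), hroot c (by simp)⟩, ?_⟩
  simp [add_assoc]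

theorem LWC : LWC_stmt := by
  intro Ω _ _ _ Γ _ ρ hSI L hL
  by_contra hcon
  push Not at hcon
  have hsq : ∀ x : Γ, ∃ c : Ω, ρ (x ^ (2 * L)) = c • 1 := by
    intro x
    obtain ⟨c, hc⟩ := LWC_sq _ (LWC_step ρ hSI L hcon x)
    refine ⟨c, ?_⟩
    rw [two_mul, pow_add, map_mul, hc]
  have hτ : ∀ x : Γ, ad0 ρ x ^ (2 * L) = 1 := by
    intro x
    obtain ⟨c, hc⟩ := hsq x
    rw [← map_pow]
    exact LWC_ad0_scalar ρ _ c hc
  obtain ⟨E, hE, hEm⟩ := LWC_trace_finite (Ω := Ω) (2 * L) (by omega)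
  have hspan := RG.BUR.BUR (ad0 ρ) (ad0_irred ρ hSI)
  obtain ⟨f, hf1, hf2, -⟩ := Submodule.exists_fun_fin_finrank_span_eq Ω (Set.range (ad0 ρ))
  replace hf2 := hf2.trans hspan
  choose g hg using hf1
  -- the traces determine the element
  have hinj : ∀ x y : Γ, (∀ i, (ad0 ρ x * f i).trace = (ad0 ρ y * f i).trace) → ad0 ρ x = ad0 ρ y := by
    intro x y h
    have h1 : ∀ A : Matrix (Fin 3) (Fin 3) Ω, ((ad0 ρ x - ad0 ρ y) * A).trace = 0 := by
      intro A
      have hA : A ∈ Submodule.span Ω (Set.range f) := by rw [hf2]; trivial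
      induction hA using Submodule.span_induction with
      | mem A hA =>
        obtain ⟨i, rfl⟩ := hA
        rw [sub_mul, trace_sub, h i, sub_self]
      | zero => simp
      | add A B _ _ hA hB => rw [mul_add, trace_add, hA, hB, add_zero]
      | smul c A _ hA => rw [mul_smul_comm, trace_smul, hA, smul_zero]
    rw [← sub_eq_zero]
    ext i j
    have h2 := h1 (Matrix.single j i 1)
    rw [trace_mul_single] at h2
    simpa using h2
  have hfin : (Set.range (ad0 ρ)).Finite := by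
    let F : Matrix (Fin 3) (Fin 3) Ω → (Fin _ → Ω) := fun M i => (M * f i).trace
    refine Set.Finite.of_finite_image (f := F) ?_ ?_
    · refine Set.Finite.subset (Set.Finite.pi' fun _ => hE) ?_
      rintro _ ⟨_, ⟨x, rfl⟩, rfl⟩ i
      show (ad0 ρ x * f i).trace ∈ E
      rw [← hg i, ← map_mul]
      exact hEm _ (hτ _)
    · rintro _ ⟨x, rfl⟩ _ ⟨y, rfl⟩ hxy
      exact hinj x y fun i => congrFun hxy i
  have hK : (ad0 ρ).ker.FiniteIndex := by
    have h0 : Finite (Set.range (ad0 ρ)) := hfin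
    have h1 : Finite (Γ ⧸ (ad0 ρ).ker) := by
      refine Finite.of_injective (β := Set.range (ad0 ρ)) (Quotient.lift
        (fun x => (⟨ad0 ρ x, x, rfl⟩ : Set.range (ad0 ρ))) ?_) ?_
      · intro a b hab
        have h2 := QuotientGroup.leftRel_apply.1 hab
        rw [MonoidHom.mem_ker] at h2
        apply Subtype.ext
        show ad0 ρ a = ad0 ρ b
        calc ad0 ρ a = ad0 ρ a * 1 := (mul_one _).symm
          _ = ad0 ρ a * ad0 ρ (a⁻¹ * b) := by rw [h2]
          _ = ad0 ρ b := by rw [← map_mul, mul_inv_cancel_left]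
      · intro a b
        induction a using QuotientGroup.induction_on with
        | H a =>
        induction b using QuotientGroup.induction_on with
        | H b =>
        intro hab
        have h3 : ad0 ρ a = ad0 ρ b := congrArg Subtype.val hab
        rw [QuotientGroup.eq, MonoidHom.mem_ker, map_mul, ← h3, ← map_mul, inv_mul_cancel, map_one]
    exact Subgroup.finiteIndex_of_finite_quotient
  have hirr := hSI _ hK
  -- the elements of the kernel act by scalars
  have hsc : ∀ h : (ad0 ρ).ker, ∃ c : Ω, ρ h = c • 1 := by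
    rintro ⟨h, hh⟩
    rw [MonoidHom.mem_ker] at hh
    have h1 : ∀ v : Fin 3 → Ω, ρ h * em v = em v * ρ h := by
      intro v
      have h2 := em_ad0 ρ h v
      rw [hh, one_mulVec] at h2
      calc ρ h * em v = (ρ h * em v * ρ h⁻¹) * ρ h := by rw [mul_assoc, hom_inv_mul', mul_one]
        _ = em v * ρ h := by rw [← h2]
    have a1 := h1 ![1, 0, 0]
    have a2 := h1 ![0, 0, 1]
    refine ⟨ρ h 0 0, ?_⟩
    have b1 := congrFun (congrFun a1 0) 0
    have b2 := congrFun (congrFun a1 0) 1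
    have b3 := congrFun (congrFun a2 0) 0
    simp [AR.em, mul_apply, Fin.sum_univ_two] at b1 b2 b3
    ext i j
    fin_cases i <;> fin_cases j
    · simp
    · simpa using b3
    · simpa using b1.symm
    · simpa using b2.symm
  rcases hirr.2 (Submodule.span Ω {(Pi.single 0 1 : Fin 2 → Ω)}) (by
    intro h u hu
    obtain ⟨c, hc⟩ := hsc h
    show ρ h *ᵥ u ∈ _
    rw [hc, smul_mulVec, one_mulVec]
    exact Submodule.smul_mem _ _ hu) with h | h
  · have h1 := Submodule.span_singleton_eq_bot.1 h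
    have h2 := congrFun h1 0
    simp at h2
  · have h1 := finrank_span_singleton (K := Ω) (v := (Pi.single 0 1 : Fin 2 → Ω)) (by
      intro h0
      have h2 := congrFun h0 0
      simp at h2)
    rw [h, finrank_top, Module.finrank_fin_fun] at h1
    omega

end Pool.Agent.AX
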