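import Pool.Agent.helper64.AX.SpecD

set_option autoImplicit false

namespace Pool.Agent.AX

open Matrix

section
variable {κ : Type} [Field κ]

theorem DPG_fix_infty (g : GL (Fin 2) κ) : pm κ g OnePoint.infty = OnePoint.infty ↔ g 1 0 = 0 := by
  constructor
  · intro h
    by_contra h0
    rw [(pm_infty g).2 h0] at h
    exact OnePoint.coe_ne_infty _ h
  · exact (pm_infty g).1

theorem DPG_det (g : GL (Fin 2) κ) : g 0 0 * g 1 1 - g 0 1 * g 1 0 ≠ 0 := by
  have h := g.det_ne_zero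
  rwa [det_fin_two] at h

theorem DPG_diag (g : GL (Fin 2) κ) (h : g 1 0 = 0) : g 0 0 ≠ 0 ∧ g 1 1 ≠ 0 := by
  have h1 := DPG_det g
  rw [h, mul_zero, sub_zero] at h1
  exact ⟨left_ne_zero_of_mul h1, right_ne_zero_of_mul h1⟩

theorem DPG_fix_coe (g : GL (Fin 2) κ) (k : κ) :
    pm κ g (k : OnePoint κ) = (k : OnePoint κ) ↔ g 0 0 * k + g 0 1 = k * (g 1 0 * k + g 1 1) := by
  by_cases h0 : g 1 0 * k + g 1 1 = 0
  · constructor
    · intro h
      rw [(pm_some g k).1 h0] at h
      exact absurd h.symm (OnePoint.coe_ne_infty _)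
    · intro h
      exfalso
      rw [h0, mul_zero] at h
      apply DPG_det g
      have e1 : g 0 0 * k = - g 0 1 := eq_neg_of_add_eq_zero_left h
      have e2 : g 1 1 = - (g 1 0 * k) := eq_neg_of_add_eq_zero_right h0
      rw [e2]
      linear_combination (- g 1 0) * e1
  · rw [(pm_some g k).2 h0]
    constructor
    · intro h
      have h1 := OnePoint.coe_injective h
      rw [div_eq_iff h0] at h1
      exact h1
    · intro h
      rw [h, mul_div_assoc, div_self h0, mul_one]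

theorem DPG_pow_entries (g : GL (Fin 2) κ) (h : g 1 0 = 0) (n : ℕ) :
    (g ^ n) 1 0 = 0 ∧ (g ^ n) 0 0 = g 0 0 ^ n ∧ (g ^ n) 1 1 = g 1 1 ^ n := by
  induction n with
  | zero => simp
  | succ n ih =>
    obtain ⟨i1, i2, i3⟩ := ih
    rw [pow_succ]
    simp only [Units.val_mul, mul_apply, Fin.sum_univ_two, h, mul_zero, add_zero, pow_succ]
    refine ⟨?_, ?_, ?_⟩
    · rw [i1, zero_mul]
    · rw [i2]
    · rw [i1, i3, zero_mul, zero_add]

theorem DPG_pow_unip (g : GL (Fin 2) κ) (h : g 1 0 = 0) (hd : g 0 0 = g 1 1) (n : ℕ) :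
    (g ^ (n + 1)) 0 1 = (n + 1 : ℕ) * (g 0 0 ^ n * g 0 1) := by
  induction n with
  | zero => simp
  | succ n ih =>
    obtain ⟨i1, i2, i3⟩ := DPG_pow_entries g h (n + 1)
    rw [pow_succ]
    simp only [Units.val_mul, mul_apply, Fin.sum_univ_two]
    rw [ih, i2, ← hd]
    push_cast
    ring

theorem DPG_PE (hPMK : PMK_stmt) (p : ℕ) [Fact p.Prime] [CharP κ p] (g : GL (Fin 2) κ)
    (h : g 1 0 = 0) : PE p (pm κ g) ↔ g 0 0 = g 1 1 := by
  constructor
  · rintro ⟨k, hk⟩
    rw [← map_pow, (hPMK κ).1] at hk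
    obtain ⟨c, hc⟩ := hk
    obtain ⟨i1, i2, i3⟩ := DPG_pow_entries g h (p ^ k)
    have e0 := congrFun (congrFun hc 0) 0
    have e1 := congrFun (congrFun hc 1) 1
    simp only [Matrix.smul_apply, one_apply_eq, smul_eq_mul, mul_one] at e0 e1
    have e2 : g 0 0 ^ p ^ k = g 1 1 ^ p ^ k := by rw [← i2, ← i3, e0, e1]
    exact iterateFrobenius_inj κ p k e2
  · intro hd
    have hp := (Fact.out : p.Prime).pos
    refine ⟨1, ?_⟩
    rw [pow_one, ← map_pow, (hPMK κ).1]
    refine ⟨g 0 0 ^ p, ?_⟩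
    obtain ⟨i1, i2, i3⟩ := DPG_pow_entries g h p
    have i4 := DPG_pow_unip g h hd (p - 1)
    rw [Nat.sub_add_cancel hp, CharP.cast_eq_zero, zero_mul] at i4
    ext i j
    fin_cases i <;> fin_cases j
    · simp only [Fin.zero_eta, Matrix.smul_apply, one_apply_eq, smul_eq_mul, mul_one]
      exact i2
    · simp only [Fin.zero_eta, Fin.mk_one, Matrix.smul_apply, smul_eq_mul]
      rw [one_apply_ne (by decide), mul_zero]
      exact i4
    · simp only [Fin.zero_eta, Fin.mk_one, Matrix.smul_apply, smul_eq_mul]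
      rw [one_apply_ne (by decide), mul_zero]
      exact i1
    · simp only [Fin.mk_one, Matrix.smul_apply, one_apply_eq, smul_eq_mul, mul_one]
      rw [hd]
      exact i3

theorem DPG_move (hPMK : PMK_stmt) (z : OnePoint κ) :
    ∃ γ : GL (Fin 2) κ, pm κ γ OnePoint.infty = z := by
  by_cases hz : z = OnePoint.infty
  · exact ⟨1, by rw [map_one, hz]; rfl⟩
  · obtain ⟨γ, h1, -⟩ := (hPMK κ).2.2 z OnePoint.infty hz
    exact ⟨γ, h1⟩

theorem DPG_PE_conj {G : Type*} [Group G] (p : ℕ) (s h : G) :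
    PE p (s⁻¹ * h * s) ↔ PE p h := by
  unfold PE
  have e : ∀ n : ℕ, (s⁻¹ * h * s) ^ n = s⁻¹ * h ^ n * s := by
    intro n
    induction n with
    | zero => simp
    | succ n ih => rw [pow_succ, ih, pow_succ]; group
  constructor
  · rintro ⟨k, hk⟩
    refine ⟨k, ?_⟩
    rw [e] at hk
    have : h ^ p ^ k = s * (s⁻¹ * h ^ p ^ k * s) * s⁻¹ := by group
    rw [this, hk]
    group
  · rintro ⟨k, hk⟩
    refine ⟨k, ?_⟩
    rw [e, hk]
    group

/-- over an algebraically closed field there is a fixed point -/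
theorem DPG_exists_fix [IsAlgClosed κ] (g : GL (Fin 2) κ) : ∃ z, pm κ g z = z := by
  by_cases h0 : g 1 0 = 0
  · exact ⟨OnePoint.infty, (pm_infty g).1 h0⟩
  · let P : Polynomial κ := Polynomial.C (g 1 0) * Polynomial.X ^ 2 +
      Polynomial.C (g 1 1 - g 0 0) * Polynomial.X + Polynomial.C (- g 0 1)
    have hP : P.degree ≠ 0 := by
      have : P.degree = 2 := Polynomial.degree_quadratic h0
      rw [this]
      decide
    obtain ⟨z, hz⟩ := IsAlgClosed.exists_root P hP
    refine ⟨(z : OnePoint κ), (DPG_fix_coe g z).2 ?_⟩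
    simp only [P, Polynomial.IsRoot.def, Polynomial.eval_add, Polynomial.eval_mul,
      Polynomial.eval_C, Polynomial.eval_pow, Polynomial.eval_X] at hz
    linear_combination (-1 : κ) * hz

/-- everything about an element that fixes a point, moved to infinity -/
theorem DPG_norm (hPMK : PMK_stmt) (p : ℕ) [Fact p.Prime] [CharP κ p]
    (h : Equiv.Perm (OnePoint κ)) (hg : ∃ g : GL (Fin 2) κ, pm κ g = h) (z : OnePoint κ)
    (hz : h z = z) (γ : GL (Fin 2) κ) (hγ : pm κ γ OnePoint.infty = z) :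
    ∃ g : GL (Fin 2) κ, pm κ g = (pm κ γ)⁻¹ * h * pm κ γ ∧ g 1 0 = 0 ∧
      (PE p h ↔ g 0 0 = g 1 1) := by
  obtain ⟨g, rfl⟩ := hg
  refine ⟨γ⁻¹ * g * γ, by rw [map_mul, map_mul, map_inv], ?_, ?_⟩
  · rw [← DPG_fix_infty, map_mul, map_mul, map_inv]
    simp only [Equiv.Perm.mul_apply]
    rw [hγ, hz, ← hγ]
    exact (pm κ γ).symm_apply_apply _
  · have h1 : (γ⁻¹ * g * γ) 1 0 = 0 := by
      rw [← DPG_fix_infty, map_mul, map_mul, map_inv]
      simp only [Equiv.Perm.mul_apply]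
      rw [hγ, hz, ← hγ]
      exact (pm κ γ).symm_apply_apply _
    rw [← DPG_PE hPMK p _ h1, map_mul, map_mul, map_inv, DPG_PE_conj]

theorem DPG_fixpts (hPMK : PMK_stmt) (g : GL (Fin 2) κ) (h : g 1 0 = 0) (hne : pm κ g ≠ 1) :
    (g 0 0 = g 1 1 → ∀ y, pm κ g y = y ↔ y = OnePoint.infty) ∧
    (g 0 0 ≠ g 1 1 → ∀ y, pm κ g y = y ↔ y = OnePoint.infty ∨
      y = ((g 0 1 / (g 1 1 - g 0 0) : κ) : OnePoint κ)) := by
  constructor
  · intro hd y
    constructor
    · intro hy
      induction y using OnePoint.rec with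
      | infty => rfl
      | coe k =>
        exfalso
        rw [DPG_fix_coe, h, hd, zero_mul, zero_add, mul_comm] at hy
        have h01 : g 0 1 = 0 := by linear_combination hy
        apply hne
        rw [(hPMK κ).1]
        refine ⟨g 0 0, ?_⟩
        ext i j
        fin_cases i <;> fin_cases j
        · simp
        · simpa using h01
        · simpa using h
        · simpa using hd.symm
    · rintro rfl
      exact (pm_infty g).1 h
  · intro hd y
    have hd' : g 1 1 - g 0 0 ≠ 0 := sub_ne_zero.2 (Ne.symm hd)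
    constructor
    · intro hy
      induction y using OnePoint.rec with
      | infty => left; rfl
      | coe k =>
        right
        rw [DPG_fix_coe, h, zero_mul, zero_add] at hy
        congr 1
        rw [eq_div_iff hd']
        linear_combination (-1 : κ) * hy
    · rintro (rfl | rfl)
      · exact (pm_infty g).1 h
      · rw [DPG_fix_coe, h, zero_mul, zero_add]
        field_simp
        ring

end

theorem DPG (hPMK : PMK_stmt) : DPG_stmt := by
  intro p _ κ _ _ _ H hfin hH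
  refine ⟨hfin, ?_, ?_, ?_, ?_⟩
  · intro h hh h1 hPE
    obtain ⟨g0, hg0⟩ := hH h hh
    obtain ⟨z, hz⟩ := DPG_exists_fix g0
    rw [hg0] at hz
    obtain ⟨γ, hγ⟩ := DPG_move hPMK z
    obtain ⟨g, e1, e2, e3⟩ := DPG_norm hPMK p h (hH h hh) z hz γ hγ
    have hne : pm κ g ≠ 1 := by
      intro h0
      rw [e1] at h0
      apply h1
      have : h = pm κ γ * ((pm κ γ)⁻¹ * h * pm κ γ) * (pm κ γ)⁻¹ := by group
      rw [this, h0]
      group
    refine ⟨z, fun y => ?_⟩
    have h3 := (DPG_fixpts hPMK g e2 hne).1 (e3.1 hPE) ((pm κ γ)⁻¹ y)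
    rw [e1] at h3
    have h4 : pm κ γ ((pm κ γ)⁻¹ y) = y := (pm κ γ).apply_symm_apply y
    simp only [Equiv.Perm.mul_apply] at h3
    rw [h4] at h3
    rw [(pm κ γ)⁻¹.injective.eq_iff, Equiv.Perm.inv_eq_iff_eq, hγ] at h3
    exact h3
  · intro h hh hPE
    obtain ⟨g0, hg0⟩ := hH h hh
    obtain ⟨z, hz⟩ := DPG_exists_fix g0
    rw [hg0] at hz
    obtain ⟨γ, hγ⟩ := DPG_move hPMK z
    obtain ⟨g, e1, e2, e3⟩ := DPG_norm hPMK p h (hH h hh) z hz γ hγ
    have hd : g 0 0 ≠ g 1 1 := fun h0 => hPE (e3.2 h0)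
    have hne : pm κ g ≠ 1 := by
      intro h0
      rw [e1] at h0
      apply hPE
      refine ⟨0, ?_⟩
      have : h = pm κ γ * ((pm κ γ)⁻¹ * h * pm κ γ) * (pm κ γ)⁻¹ := by group
      rw [pow_zero, pow_one, this, h0]
      group
    refine ⟨z, pm κ γ ((g 0 1 / (g 1 1 - g 0 0) : κ) : OnePoint κ), ?_, fun y => ?_⟩
    · rw [← hγ]
      intro h0
      exact OnePoint.infty_ne_coe _ ((pm κ γ).injective h0)
    have h3 := (DPG_fixpts hPMK g e2 hne).2 hd ((pm κ γ)⁻¹ y)
    rw [e1] at h3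
    have h4 : pm κ γ ((pm κ γ)⁻¹ y) = y := (pm κ γ).apply_symm_apply y
    simp only [Equiv.Perm.mul_apply] at h3
    rw [h4] at h3
    rw [(pm κ γ)⁻¹.injective.eq_iff, Equiv.Perm.inv_eq_iff_eq, Equiv.Perm.inv_eq_iff_eq, hγ] at h3
    exact h3
  · intro g hg h hh z hgz hhz hPg hPh
    obtain ⟨γ, hγ⟩ := DPG_move hPMK z
    obtain ⟨a, a1, a2, a3⟩ := DPG_norm hPMK p g (hH g hg) z hgz γ hγ
    obtain ⟨b, b1, b2, b3⟩ := DPG_norm hPMK p h (hH h hh) z hhz γ hγ
    have e : (pm κ γ)⁻¹ * (g * h) * pm κ γ = pm κ (a * b) := by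
      rw [map_mul, a1, b1]
      group
    rw [← DPG_PE_conj p (pm κ γ), e]
    have h10 : (a * b) 1 0 = 0 := by
      simp only [Units.val_mul, mul_apply, Fin.sum_univ_two]
      rw [a2, b2]
      ring
    rw [DPG_PE hPMK p _ h10]
    simp only [Units.val_mul, mul_apply, Fin.sum_univ_two]
    rw [a2, b2, a3.1 hPg, b3.1 hPh]
    ring
  · intro g hg h hh z hgz hhz hPg hg1 hcom
    obtain ⟨γ, hγ⟩ := DPG_move hPMK z
    obtain ⟨a, a1, a2, a3⟩ := DPG_norm hPMK p g (hH g hg) z hgz γ hγ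
    obtain ⟨b, b1, b2, b3⟩ := DPG_norm hPMK p h (hH h hh) z hhz γ hγ
    have hc : pm κ (a * b) = pm κ (b * a) := by
      rw [map_mul, map_mul, a1, b1]
      calc (pm κ γ)⁻¹ * g * pm κ γ * ((pm κ γ)⁻¹ * h * pm κ γ)
          = (pm κ γ)⁻¹ * (g * h) * pm κ γ := by group
        _ = (pm κ γ)⁻¹ * (h * g) * pm κ γ := by rw [hcom]
        _ = _ := by group
    rw [(hPMK κ).2.1] at hc
    obtain ⟨c, hc⟩ := hc
    rw [b3]
    have ha := a3.1 hPg
    obtain ⟨ha0, ha1⟩ := DPG_diag a a2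
    obtain ⟨hb0, hb1⟩ := DPG_diag b b2
    have e00 := congrFun (congrFun hc 0) 0
    have e01 := congrFun (congrFun hc 0) 1
    simp only [Units.val_mul, mul_apply, Fin.sum_univ_two, Matrix.smul_apply, smul_eq_mul] at e00 e01
    rw [a2, b2] at e00
    have hc1 : c = 1 := by
      have : (a 0 0 * b 0 0) * (c - 1) = 0 := by linear_combination (-1 : κ) * e00
      rcases mul_eq_zero.1 this with h | h
      · exact absurd h (mul_ne_zero ha0 hb0)
      · exact sub_eq_zero.1 h
    rw [hc1, one_mul, ← ha] at e01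
    have h01 : a 0 1 ≠ 0 := by
      intro h0
      have h5 : pm κ a = 1 := by
        rw [(hPMK κ).1]
        refine ⟨a 0 0, ?_⟩
        ext i j
        fin_cases i <;> fin_cases j
        · simp
        · simpa using h0
        · simpa using a2
        · simpa using ha.symm
      rw [a1] at h5
      apply hg1
      have : g = pm κ γ * ((pm κ γ)⁻¹ * g * pm κ γ) * (pm κ γ)⁻¹ := by group
      rw [this, h5]
      group
    have : a 0 1 * (b 0 0 - b 1 1) = 0 := by linear_combination (-1 : κ) * e01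
    rcases mul_eq_zero.1 this with h | h
    · exact absurd h h01
    · exact sub_eq_zero.1 h

end Pool.Agent.AX
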