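import Mathlib

/-!
# Project AX (MP_2e0e07_nt), blocks D, C, R: definitions

Finite groups of permutations with the fixed point axioms of the finite subgroups of `PGL_2` of an algebraically closed field of
characteristic `p`.
-/

set_option autoImplicit false

namespace Pool.Agent.AX

open Matrix

/-- some `p`-power of `h` is trivial -/
def PE (p : ℕ) {G : Type*} [Group G] (h : G) : Prop := ∃ k : ℕ, h ^ p ^ k = 1

/-- THE FIXED POINT AXIOMS for a finite group `H` of permutations of `Z`: an element `h ≠ 1` of `p`-power order has exactly one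
fixed point, every other element `≠ 1` has exactly two; in the stabiliser of a point the elements of `p`-power order are
closed under multiplication, and whatever commutes with one of them (`≠ 1`) is of `p`-power order. -/
structure FPA (p : ℕ) {Z : Type} (H : Subgroup (Equiv.Perm Z)) : Prop where
  fin : (H : Set (Equiv.Perm Z)).Finite
  one : ∀ h ∈ H, h ≠ 1 → PE p h → ∃ z, ∀ y, h y = y ↔ y = z
  two : ∀ h ∈ H, ¬ PE p h → ∃ z w, z ≠ w ∧ ∀ y, h y = y ↔ y = z ∨ y = w
  mul : ∀ g ∈ H, ∀ h ∈ H, ∀ z, g z = z → h z = z → PE p g → PE p h → PE p (g * h)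
  com : ∀ g ∈ H, ∀ h ∈ H, ∀ z, g z = z → h z = z → PE p g → g ≠ 1 → g * h = h * g → PE p h

/-- the elements of `p`-power order which fix `z` -/
def Us (p : ℕ) {Z : Type} (H : Subgroup (Equiv.Perm Z)) (z : Z) : Set (Equiv.Perm Z) := {h | h ∈ H ∧ h z = z ∧ PE p h}

/-- the stabiliser of `z` -/
def St {Z : Type} (H : Subgroup (Equiv.Perm Z)) (z : Z) : Set (Equiv.Perm Z) := {h | h ∈ H ∧ h z = z}

/-- the `p`-points: fixed points of elements `≠ 1` of `p`-power order -/
def Om (p : ℕ) {Z : Type} (H : Subgroup (Equiv.Perm Z)) : Set Z := {z | ∃ h ∈ H, h ≠ 1 ∧ PE p h ∧ h z = z}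

/-- `H` has no fixed point -/
def NoFix {Z : Type} (H : Subgroup (Equiv.Perm Z)) : Prop := ∀ z, ∃ h ∈ H, h z ≠ z

open Classical in
/-- the action of `GL_2(κ)` on the projective line -/
noncomputable def pm (κ : Type) [Field κ] : GL (Fin 2) κ →* Equiv.Perm (OnePoint κ) := MulAction.toPermHom _ _

/-- the unipotent matrix `(1 1; 0 1)` -/
noncomputable def uu (κ : Type) [Field κ] : GL (Fin 2) κ := GeneralLinearGroup.mkOfDetNeZero !![1, 1; 0, 1] (by simp [det_fin_two])

/-- the unipotent matrix `(1 0; 1 1)` -/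
noncomputable def ww (κ : Type) [Field κ] : GL (Fin 2) κ := GeneralLinearGroup.mkOfDetNeZero !![1, 0; 1, 1] (by simp [det_fin_two])

theorem FPA.mono {p : ℕ} {Z : Type} {H N : Subgroup (Equiv.Perm Z)} (h : FPA p H) (hN : N ≤ H) : FPA p N :=
  ⟨h.fin.subset hN, fun g hg => h.one g (hN hg), fun g hg => h.two g (hN hg),
    fun g hg g' hg' => h.mul g (hN hg) g' (hN hg'), fun g hg g' hg' => h.com g (hN hg) g' (hN hg')⟩

section pm
variable {κ : Type} [Field κ]

theorem pm_infty (g : GL (Fin 2) κ) : (g 1 0 = 0 → pm κ g OnePoint.infty = OnePoint.infty) ∧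
    (g 1 0 ≠ 0 → pm κ g OnePoint.infty = ((g 0 0 / g 1 0 : κ) : OnePoint κ)) := by
  have h := @OnePoint.smul_infty_eq_ite κ _ (Classical.decEq κ) g
  have e : pm κ g OnePoint.infty = @HSMul.hSMul _ _ _ (@instHSMul _ _ (@OnePoint.instGLAction κ _ (Classical.decEq κ)).toSMul) g OnePoint.infty := rfl
  rw [e, h]
  exact ⟨fun h0 => if_pos h0, fun h0 => if_neg h0⟩

theorem pm_some (g : GL (Fin 2) κ) (k : κ) : (g 1 0 * k + g 1 1 = 0 → pm κ g (k : OnePoint κ) = OnePoint.infty) ∧
    (g 1 0 * k + g 1 1 ≠ 0 → pm κ g (k : OnePoint κ) = (((g 0 0 * k + g 0 1) / (g 1 0 * k + g 1 1) : κ) : OnePoint κ)) := by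
  have h := @OnePoint.smul_some_eq_ite κ _ (Classical.decEq κ) g k
  have e : pm κ g (k : OnePoint κ) = @HSMul.hSMul _ _ _ (@instHSMul _ _ (@OnePoint.instGLAction κ _ (Classical.decEq κ)).toSMul) g (k : OnePoint κ) := rfl
  rw [e, h]
  exact ⟨fun h0 => if_pos h0, fun h0 => if_neg h0⟩

end pm

end Pool.Agent.AX
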