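import Pool.Agent.helper64.AX.DefsD

/-!
# Project AX (MP_2e0e07_nt), blocks D and C: finite subgroups of `PGL_2`, coprime linear groups

Project: the adelic dichotomy of helper44 (`/team-store/H6_MP_2e0e07_nt_ADELIC_helper44.md`).

RULES. Row `ax:XX`: file `Pool/Agent/<seat>/AX/XX.lean`, `import Pool.Agent.helper64.AX.SpecD`, `set_option autoImplicit false`,
`namespace Pool.Agent.AX`, `open Matrix`, auxiliary lemmas prefixed `XX_`, theorem line as in the lock note (other rows only as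
hypotheses). No straight double quotes, no convert / congr!. Finish: land, note DONE + path, one line to helper64.

`PE p h`: some `p`-power of `h` is one; `FPA p H`: the fixed point axioms for a finite `H : Subgroup (Equiv.Perm Z)`; `Us p H z`, `St H z`,
`Om p H`, `NoFix H`: `DefsD.lean`. `FPA.mono`: they pass to subgroups. In a finite group an element has `PE p` iff its order is a power of `p`.
-/

set_option autoImplicit false

namespace Pool.Agent.AX

open Matrix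

/-! ## Block D: finite groups with the fixed point axioms -/

/-- **DSY** (medium; Sylow). (1) Let `P ≠ 1` be a `p`-group in `H`. Its centre contains `z ≠ 1` (`IsPGroup.center_nontrivial`; `P` is finite as a subgroup of `H`), which has exactly one fixed point `x` (`FPA.one`); for `g ∈ P`,
`z (g x) = g (z x) = g x`, so `g x = x`; `x ∈ Om p H`. (2) Let `x ∈ Om p H`. `U = Us p H x` is (the carrier of) a subgroup (`FPA.mul`; inverses: a power) and a `p`-group `≠ 1`. If `P ⊇ U` is a `p`-group in `H` then by (1) `P` fixes some `x'`; an element `≠ 1`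
of `U` fixes `x` and `x'`, so `x' = x` (`FPA.one`) and `P ⊆ U`. So `U` is a Sylow `p`-subgroup of `H` (maximal `p`-subgroup: `Sylow` structure of `H`, subgroups of the type `H`), so `#U = p^k`, `k = ` the exponent of `p` in `#H` (`Sylow.card_eq_multiplicity`), and `k ≥ 1`. (3) For `x, y ∈ Om` the Sylow
subgroups `Us x`, `Us y` are conjugate by `h ∈ H`: `Us (h x) = h (Us x) h⁻¹ = Us y`, an element `≠ 1` of it fixes `h x` and `y`, so `h x = y`. (4) `h (Us x) h⁻¹ = Us (h x)`, so `h x ∈ Om`. -/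
def DSY_stmt : Prop := ∀ (p : ℕ) [Fact p.Prime] (Z : Type) (H : Subgroup (Equiv.Perm Z)), FPA p H →
  (∀ P ≤ H, (∀ g ∈ P, PE p g) → P ≠ ⊥ → ∃ x ∈ Om p H, ∀ g ∈ P, g x = x) ∧
  (∀ x ∈ Om p H, ∀ y ∈ Om p H, ∃ h ∈ H, h x = y) ∧ (∀ x ∈ Om p H, ∀ h ∈ H, h x ∈ Om p H) ∧
  ∀ x ∈ Om p H, (Us p H x).ncard = p ^ (Nat.card H).factorization p ∧ 1 ≤ (Nat.card H).factorization p

/-- **DOR** (medium; from DSY). `q = p^k`, `k = ` exponent of `p` in `#H`. `Om` is not empty: Cauchy (`exists_prime_orderOf_dvd_card'`), `FPA.one`. `x ∈ Om`. Orbit-stabiliser: `#H = #Om * #(St H x)` (`Om` is the orbit of `x` by DSY (2), (3); `MulAction.card_orbit_mul_card_stabilizer_eq_card_group`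
for the action of `H` on `Z`). `#(St H x) = q e`: `Us p H x` is a subgroup of the stabiliser (Lagrange). `U = Us p H x` acts freely on `Om - {x}` (an element `≠ 1` of `U` fixes only `x`), so `q ∣ #Om - 1` (`#Om = 1 + m q`; e.g. `MulAction.card_modEq_card_fixedPoints` only gives `mod p`; use that all orbits on
`Om - {x}` have `q` elements). `e ∣ q - 1`: `St H x` acts by conjugation on `U - {1}` (`U` is stable: `h U h⁻¹ = Us (h x)`), and the stabiliser of `u` is contained in `U` (`FPA.com`), so its order divides `q`; the orbit of `u` has `q e / #C` elements, a multiple of `e`; `U - {1}` is a disjoint union of orbits. -/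
def DOR_stmt : Prop := ∀ (p : ℕ) [Fact p.Prime] (Z : Type) (H : Subgroup (Equiv.Perm Z)), FPA p H → p ∣ Nat.card H →
  ∃ k m e : ℕ, 1 ≤ k ∧ 1 ≤ e ∧ e ∣ p ^ k - 1 ∧ (Om p H).Finite ∧ (Om p H).ncard = 1 + m * p ^ k ∧
    Nat.card H = (1 + m * p ^ k) * (p ^ k * e) ∧ (∀ x ∈ Om p H, (Us p H x).ncard = p ^ k ∧ (St H x).ncard = p ^ k * e)

/-- **DCT** (medium; the count; no other row). `Z' = {z | some h ∈ H, h ≠ 1, h z = z}` is finite (each `h ≠ 1` has at most two fixed points), `H`-stable and contains `Om`. Count the pairs `(h, z)`, `h ∈ H - {1}`, `h z = z`, in two ways. By `h`: `h` with `PE p h` has one fixed point, and these `h` are the disjoint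
union of the `Us x - {1}`, `x ∈ Om` (each such `h` has exactly one fixed point, which is in `Om`): `N (q - 1)` elements; all others have two: total `2 (#H - 1) - N (q - 1)`. By `z`: `∑_(z ∈ Z') (#St z - 1)`, where each `z ∈ Om` gives `q e - 1`. With `R = Z' - Om`:
`∑_(z ∈ R) (#St z - 1) = #H - 2 - N (q - 2)` (`#H = N q e`). If `R` is empty, `N (q e - q + 2) = 2`, impossible for `N ≥ 2` (`q e ≥ q`). Take `z₀ ∈ R`, `O` its orbit, `#O * c = #H`, `c = #St z₀ ≥ 2`: the sum over `O` is `#O (c - 1) = #H - #O ≥ #H / 2`. If there were `z₁ ∈ R - O`, the sum would be `≥ #H`,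
but it is `< #H`. So `R = O`, `#H - #O = #H - 2 - N (q - 2)`, `#O = N (q - 2) + 2`, and `c #O = #H`. (Or Burnside's lemma `MulAction.sum_card_fixedBy_eq_card_orbits_mul_card_group` on `Z'`.) -/
def DCT_stmt : Prop := ∀ (p : ℕ) [Fact p.Prime] (Z : Type) (H : Subgroup (Equiv.Perm Z)) (q e N : ℕ), FPA p H →
  2 ≤ q → 1 ≤ e → 2 ≤ N → (Om p H).Finite → (Om p H).ncard = N → Nat.card H = N * (q * e) →
  (∀ x ∈ Om p H, (Us p H x).ncard = q ∧ (St H x).ncard = q * e) → ∃ c : ℕ, c * (N * (q - 2) + 2) = N * (q * e)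

/-- **DAR** (short; arithmetic). `N (q - 2) + 2 = q (1 + m (q - 2))` for `N = 1 + m q`, so `c s = e (1 + m q)`, `s = 1 + m (q - 2)`. `1 + m q = s + 2 m`, so `s ∣ 2 m e`; `gcd(s, m) = 1`, so `s ∣ 2 e ≤ 2 (q - 1)`. `m ≥ 3` gives `s ≥ 3 q - 5 > 2 (q - 1)` (`q ≥ 5`); `m = 2`: `s = 2 q - 3` is odd and divides `2 e`, so it divides
`e ≤ q - 1 < 2 q - 3`. So `m = 1` and `s = q - 1 ∣ 2 e`. -/
def DAR_stmt : Prop := ∀ q e m c : ℕ, 5 ≤ q → 1 ≤ e → e ∣ q - 1 → 1 ≤ m →
  c * ((1 + m * q) * (q - 2) + 2) = (1 + m * q) * (q * e) → m = 1 ∧ q - 1 ∣ 2 * e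

/-- **DFI** (short; from DOR, DCT, DAR). The finite group `H` has no fixed point: `N = #Om ≥ 2` (if `Om = {x}` then all of `H` fixes `x`: `Om` is `H`-stable, DSY (3), or `#H = #St H x`, so `St H x = H`), so `m ≥ 1`; DCT, DAR (`q = p^k ≥ 5`). -/
def DFI_stmt : Prop := ∀ (p : ℕ) [Fact p.Prime] (Z : Type) (H : Subgroup (Equiv.Perm Z)), 5 ≤ p → FPA p H → p ∣ Nat.card H → NoFix H →
  ∃ k e : ℕ, 1 ≤ k ∧ 1 ≤ e ∧ e ∣ p ^ k - 1 ∧ p ^ k - 1 ∣ 2 * e ∧ (Om p H).Finite ∧ (Om p H).ncard = p ^ k + 1 ∧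
    Nat.card H = (p ^ k + 1) * (p ^ k * e) ∧ ∀ x ∈ Om p H, (Us p H x).ncard = p ^ k ∧ (St H x).ncard = p ^ k * e

/-- **DNP** (short; from DSY). A normal subgroup `P` of `H` which is a `p`-group is trivial if `H` has no fixed point. If `P ≠ 1` it has a common fixed point `x` (DSY (1)) and this is its only one (an element `≠ 1` of `P` has one fixed point). For `h ∈ H`, `g ∈ P`: `g (h x) = h (h⁻¹ g h) x = h x`, so `h x = x`. -/
def DNP_stmt : Prop := ∀ (p : ℕ) [Fact p.Prime] (Z : Type) (H P : Subgroup (Equiv.Perm Z)), FPA p H → NoFix H → P ≤ H →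
  (∀ h ∈ H, ∀ g ∈ P, h * g * h⁻¹ ∈ P) → (∀ g ∈ P, PE p g) → P = ⊥

/-- **DNO** (medium; from DSY, DFI). NORMAL SUBGROUPS. (i) Suppose `p` does not divide `#N`. Let `u ∈ H` be of order `p` (Cauchy), `x` its fixed point. `N_x = N ∩ St H x` is trivial: for `n ∈ N_x` the commutator `u n u⁻¹ n⁻¹` is in `N` and fixes `x`, and it is in `Us p H x`: it is `u (n u⁻¹ n⁻¹)`, a product of two elements of
`Us p H x`; an element of `N` with `PE p` is `1`. So `n` commutes with `u`, `FPA.com`: `PE p n`, so `n = 1`. Let `H' = N ⊔ ⟨u⟩` (`N` is normalised by `u`; its elements are `n u^i`). `FPA.mono`; `p ∣ #H'`. `H'` has no fixed point: it could only be `x`, then `N = N_x = 1`. `St H' x = ⟨u⟩` has `p` elements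
(`n u^i` fixes `x` iff `n` does, iff `n = 1`), and so has `Us p H' x`. By DFI for `H'` (`x ∈ Om p H'`): `p^k' = #Us = p` and `p^k' e' = #St = p`, so `e' = 1` and `p - 1 ∣ 2`: contradiction to `p ≥ 5`.
(ii) So `p ∣ #N`. `N` has no fixed point: if `N` fixes `x`, an element of order `p` of `N` has `x` as its only fixed point, and for `h ∈ H` the point `h x` is fixed by `N` as well, so `h x = x` for all `h ∈ H`. DFI for `N`: `#N = (q' + 1) q' e'`, `#(Om p N) = q' + 1`, `(q' - 1) ∣ 2 e'`; DFI for `H`: `q, e`. Let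
`x ∈ Om p N ⊆ Om p H`. `Us p H x` acts freely on `Om p N - {x}` (`Om p N` is `H`-stable): `q ∣ q'`; `Us p N x ⊆ Us p H x`: `q' ≤ q`. So `q' = q`, `#N ∣ #H` gives `e' ∣ e`, and `e ≤ q - 1 ≤ 2 e'`: `#H ≤ 2 #N`. -/
def DNO_stmt : Prop := ∀ (p : ℕ) [Fact p.Prime] (Z : Type) (H N : Subgroup (Equiv.Perm Z)), 5 ≤ p → FPA p H → p ∣ Nat.card H → NoFix H →
  N ≤ H → N ≠ ⊥ → (∀ h ∈ H, ∀ n ∈ N, h * n * h⁻¹ ∈ N) → p ∣ Nat.card N ∧ NoFix N ∧ Nat.card H ≤ 2 * Nat.card N

/-! ## Block D, matrices -/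

/-- **PMK** (short). `pm_infty`, `pm_some`: if `pm κ g = 1` then `g 1 0 = 0` (point `∞`), `g 0 1 = 0` (point `0`), `g 0 0 = g 1 1` (point `1`). Conversely a scalar matrix acts trivially. Second part: `pm` is a homomorphism. Third part: `γ = (x y; 1 1)`-type matrices (`x ≠ y` in `κ`), `(1 y; 0 1)` for
`x = ∞`, `(x 1; 1 0)` for `y = ∞`; scaling by `diag(a, 1)` fixes `∞` and `0`. -/
def PMK_stmt : Prop := ∀ (κ : Type) [Field κ], (∀ g : GL (Fin 2) κ, pm κ g = 1 ↔ ∃ c : κ, (g : Matrix (Fin 2) (Fin 2) κ) = c • 1) ∧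
  (∀ g h : GL (Fin 2) κ, pm κ g = pm κ h ↔ ∃ c : κ, (g : Matrix (Fin 2) (Fin 2) κ) = c • (h : Matrix (Fin 2) (Fin 2) κ)) ∧
  ∀ x y : OnePoint κ, x ≠ y → ∃ γ : GL (Fin 2) κ, pm κ γ OnePoint.infty = x ∧ pm κ γ ((0 : κ) : OnePoint κ) = y

/-- **DPG** (medium; from PMK). The fixed point axioms for finite subgroups of `PGL_2(κ)`. Let `h = pm g ∈ H`, `h ≠ 1` of finite order. `g` is not scalar. Moving a fixed point (an eigenline exists, `κ` is algebraically closed; the quadratic equation `c z² + (d - a) z - b = 0`, or `∞`) to `∞` with PMK (third part) and conjugation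
we may take `g = (a b; 0 d)`; `pm g` is `z ↦ (a z + b)/d` and fixes `∞`. If `a = d`: `b ≠ 0`, no other fixed point, `h^p = 1`. If `a ≠ d`: exactly one other fixed point `b/(d - a)`, and `h^(p^k) = 1` would give `(a/d)^(p^k) = 1`, so `a/d = 1` (`κ` has characteristic `p`): not `PE`. `mul`: for `z = ∞`: `PE` elements (of finite order) that fix
`∞` have `a = d`; the product of two such matrices too, and `(pm g)^p = 1`. `com`: `g = (1 b; 0 1)` up to a scalar, `b ≠ 0`, `h = (a' b'; 0 d')`: `g h = h g` in `PGL_2`: the upper right entries give `d' b = a' b`, so `a' = d'`. -/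
def DPG_stmt : Prop := ∀ (p : ℕ) [Fact p.Prime] (κ : Type) [Field κ] [IsAlgClosed κ] [CharP κ p] (H : Subgroup (Equiv.Perm (OnePoint κ))),
  (H : Set (Equiv.Perm (OnePoint κ))).Finite → (∀ h ∈ H, ∃ g : GL (Fin 2) κ, pm κ g = h) → FPA p H

/-- **DUW** (medium; from DSY, DFI, PMK, DPG). `Om` has `q + 1 ≥ 2` points `x ≠ y` (DFI); conjugating by `γ` of PMK we may take `x = ∞`, `y = 0` (replace `H` by `pm γ⁻¹ H pm γ`). An element `≠ 1` of `Us p H ∞` is `z ↦ z + b` (see DPG), `Us p H 0`: `z ↦ z/(1 + c z)`. `Us p H ∞` has `q` elements and acts freely on the `q`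
points of `Om - {∞}`, so transitively: `Om - {∞} = {b | (z ↦ z + b) ∈ H} = B`. The same for `Us p H 0` on `Om - {0}`: `Om - {0} = {∞} ∪ {1/c | c ≠ 0, (z ↦ z/(1 + c z)) ∈ H}`. Take `b ≠ 0` in `B` (`q > 1`): `b = 1/c`. Conjugating with `diag(b, 1)` (`z ↦ b z`) makes `b = 1`, `c = 1`: both `pm (uu)` and `pm (ww)` are in the conjugated group
(`ww`: `z ↦ z/(z + 1)`). -/
def DUW_stmt : Prop := ∀ (p : ℕ) [Fact p.Prime] (κ : Type) [Field κ] [IsAlgClosed κ] [CharP κ p] (H : Subgroup (Equiv.Perm (OnePoint κ))), 5 ≤ p →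
  (H : Set (Equiv.Perm (OnePoint κ))).Finite → (∀ h ∈ H, ∃ g : GL (Fin 2) κ, pm κ g = h) → p ∣ Nat.card H → NoFix H →
  ∃ γ : GL (Fin 2) κ, pm κ (γ * uu κ * γ⁻¹) ∈ H ∧ pm κ (γ * ww κ * γ⁻¹) ∈ H

/-- **DTO** (short-medium). The torus in the group generated by `u`, `w`. With `E12(a) = (1 a; 0 1)`, `E21(a) = (1 0; a 1)`: `diag(g, 1/g) = E12(g - 1) E21(1) E12(1/g - 1) E21(-g)` (`g` invertible), and `diag(g, 1/g) E12(1) diag(g, 1/g)⁻¹ = E12(g²)`. `E12(a) = uu^a`, `E21(a) = ww^a` for natural numbers `a` (`κ` of characteristic `p`: `1/g` is the class of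
a natural number `b` with `b g ≡ 1 mod p`, `-g` that of `(p - 1) g`). So `t = γ uu^(g-1) ww uu^(b+p-1) ww^((p-1) g) γ⁻¹`. `uu^p = 1`, `pm (uu) ≠ 1` (it moves `0`). Stated for an arbitrary group `G` and a homomorphism into it. -/
def DTO_stmt : Prop := ∀ (p : ℕ) [Fact p.Prime] (κ : Type) [Field κ] [CharP κ p] (H : Subgroup (Equiv.Perm (OnePoint κ))) (γ : GL (Fin 2) κ),
  pm κ (γ * uu κ * γ⁻¹) ∈ H → pm κ (γ * ww κ * γ⁻¹) ∈ H →
  pm κ (γ * uu κ * γ⁻¹) ^ p = 1 ∧ pm κ (γ * uu κ * γ⁻¹) ≠ 1 ∧ ∀ g : ℕ, ¬ p ∣ g →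
    ∃ t ∈ H, t * pm κ (γ * uu κ * γ⁻¹) * t⁻¹ = pm κ (γ * uu κ * γ⁻¹) ^ g ^ 2

/-- **DRS** (short-medium; from PMK). A representation `S` of a group `Γ` over an algebraically closed `κ` of characteristic `p`: the image in `PGL_2`. `H` = the image of `pm ∘ S.toHomUnits` (a subgroup of `Equiv.Perm (OnePoint κ)`), finite if `S` has finite image. NoFix: a fixed point is a stable line of `S` (`∞`: `(1,0)`, `z`: `(z,1)`),
but `S` is irreducible. `p ∣ #H`: an element `S s` of order `p` is not scalar (`c^p = 1` gives `c = 1` in characteristic `p`), so `pm (S s) ≠ 1` has order `p` (`orderOf_eq_prime`), `orderOf_dvd_natCard`. -/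
def DRS_stmt : Prop := ∀ (p : ℕ) [Fact p.Prime] (κ : Type) [Field κ] [IsAlgClosed κ] [CharP κ p] (Γ : Type) [Group Γ] (S : Γ →* GL (Fin 2) κ),
  (Set.range S).Finite → (∀ v : Fin 2 → κ, v ≠ 0 → ∃ g : Γ, ∀ c : κ, (S g : Matrix (Fin 2) (Fin 2) κ) *ᵥ v ≠ c • v) → (∃ s : Γ, orderOf (S s) = p) →
  (((pm κ).comp S).range : Set (Equiv.Perm (OnePoint κ))).Finite ∧ p ∣ Nat.card ((pm κ).comp S).range ∧ NoFix ((pm κ).comp S).range

/-! ## Block C: coprime linear groups -/

/-- **CPE** (medium; only Mathlib). `A` a commuting set of matrices of finite order prime to the characteristic, `X` normalises `A`: then `X^(m!)` commutes with `A`. For `χ : A → k` let `E χ = ⋂_a ker (a - χ a)`. The elements of `A` are semisimple (`X^n - 1` is separable: `Module.End.isSemisimple_of_squarefree_aeval_eq_zero`) and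
commute, so `⨆ χ, E χ = ⊤` (`Module.End.iSup_iInf_maxGenEigenspace_eq_top_of_iSup_maxGenEigenspace_eq_top_of_commute`, `Module.End.IsFinitelySemisimple.maxGenEigenspace_eq_eigenspace`), and the nonzero `E χ` are independent (`Module.End.independent_iInf_maxGenEigenspace_of_forall_mapsTo`), so there are at most `m` of them
(`iSupIndep.subtype_ne_bot_le_finrank`). `X (E χ) = E χ'`, `χ' (a) = χ (X⁻¹ a X)`: `X` permutes the nonzero `E χ`, so `X^(m!)` maps each `E χ` to itself (a permutation of at most `m` elements has order dividing `m!`: `Equiv.Perm` card, `pow_card_eq_one`, `Nat.factorial_dvd_factorial`), and on `E χ` the element `a` is the scalar `χ a`. -/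
def CPE_stmt : Prop := ∀ (m : ℕ) (k : Type) [Field k] [IsAlgClosed k] (A : Subgroup (GL (Fin m) k)) (X : GL (Fin m) k),
  (∀ a ∈ A, ∀ b ∈ A, a * b = b * a) → (∀ a ∈ A, ∃ n : ℕ, (n : k) ≠ 0 ∧ a ^ n = 1) →
  (∀ a, a ∈ A ↔ X * a * X⁻¹ ∈ A) → ∀ a ∈ A, X ^ m.factorial * a = a * X ^ m.factorial

/-- **CAB** (medium; only Mathlib). A finite `p`-subgroup `R` of `GL_m(k)`, `m < p`, `p ≠ 0` in `k`, is commutative. Otherwise `[R, R] ≠ 1` is normal in `R`, so it meets the centre (`IsPGroup` : a nontrivial normal subgroup of a finite `p`-group meets the centre; search `IsPGroup`, `center`, or count fixed points of conjugation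
`IsPGroup.card_modEq_card_fixedPoints`); take `z ≠ 1` in it, and (a power) of order `p`: `z^p = 1`. As matrix `z` is diagonalisable (`X^p - 1` is separable) and `≠ 1`, so it has an eigenvalue `ζ ≠ 1`, `ζ^p = 1`, with eigenspace `W`, `0 < d = dim W ≤ m < p`. `R` commutes with `z`, so it acts on `W`; `g ↦ det (g | W)` is a homomorphism of `R` into a
commutative group, so it is trivial on `z ∈ [R, R]`: `ζ^d = 1`, with `ζ^p = 1`, `gcd(d, p) = 1`: `ζ = 1`. -/
def CAB_stmt : Prop := ∀ (p : ℕ) [Fact p.Prime] (m : ℕ) (k : Type) [Field k] [IsAlgClosed k] (R : Subgroup (GL (Fin m) k)),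
  m < p → (p : k) ≠ 0 → (R : Set (GL (Fin m) k)).Finite → (∀ g ∈ R, PE p g) → ∀ x ∈ R, ∀ y ∈ R, x * y = y * x

/-- **CMA** (medium; only Mathlib). A finite `p`-group has a normal abelian subgroup which is its own centraliser. Let `A` be a maximal abelian normal subgroup (`Finite`: `Set.Finite.exists_maximal`), `C` its centraliser, normal, `C ⊇ A`. If `C ≠ A`, the image of `C` in `G / A` is a nontrivial normal subgroup of a `p`-group, so it contains a central
element `≠ 1` of `G / A` (see CAB), the class of `c ∈ C - A`. Then `A ⊔ ⟨c⟩` is abelian (`c` commutes with `A`) and normal (`g c g⁻¹ ∈ c A`): contradiction. -/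
def CMA_stmt : Prop := ∀ (p : ℕ) [Fact p.Prime] (G : Type) [Group G] [Finite G], (∀ g : G, PE p g) →
  ∃ A : Subgroup G, A.Normal ∧ (∀ a ∈ A, ∀ b ∈ A, a * b = b * a) ∧ ∀ g : G, (∀ a ∈ A, g * a = a * g) → g ∈ A

/-- **CLW** (short; from CPE, CMA). THE LAW. `R` a finite `p`-subgroup of `GL_m(k)`, `p ≠ 0` in `k`: `x^(m!)` and `y^(m!)` commute for `x, y ∈ R`. `A` from CMA for the group `R`; its image in `GL_m(k)`, `a^(p^j) = 1`, `(p^j : k) ≠ 0`; CPE with `X = x`: `x^(m!)` centralises `A`, so it is in `A`; the same for `y`; `A` is commutative. -/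
def CLW_stmt : Prop := ∀ (p : ℕ) [Fact p.Prime] (m : ℕ) (k : Type) [Field k] [IsAlgClosed k] (R : Subgroup (GL (Fin m) k)),
  (p : k) ≠ 0 → (R : Set (GL (Fin m) k)).Finite → (∀ g ∈ R, PE p g) →
  ∀ x ∈ R, ∀ y ∈ R, x ^ m.factorial * y ^ m.factorial = y ^ m.factorial * x ^ m.factorial

/-- **CCR** (medium; from CPE, CAB). CROSS. `D` finite; `r a : D → GL_(d a)(κ a)`, `d a ≤ m < p`, `κ a` of characteristic `q a ≠ p`; `K a` normal, `⋂ K a = 1`; `r a g = 1` implies that a `q a`-power of `g` is in `K a`; `f : D → G'`, `u, t ∈ f(D)`, `u^p = 1`, `t u t⁻¹ = u^s`. Then `u^(s^(m!)) = u`. Proof. `D₂ = f⁻¹(⟨u⟩)`, `P` a Sylow `p`-subgroup of `D₂`: `f(P) = ⟨u⟩`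
(the image of a Sylow subgroup under the surjection `D₂ → ⟨u⟩` onto a `p`-group is everything: `Sylow.mapSurjective` or counting: the index of `f(P)` in `⟨u⟩` divides the index of `P` in `D₂`, prime to `p`). `t = f(d₀)`; `d₀` normalises `D₂` (`t` normalises `⟨u⟩`, which is finite), so `d₀ P d₀⁻¹` is a Sylow subgroup of `D₂`: `= y P y⁻¹`, `y ∈ D₂`; `d = y⁻¹ d₀` normalises `P`, and
`f(d) u f(d)⁻¹ = u^s` as `f(y) ∈ ⟨u⟩` commutes with `u`, `u^s`. (An element `g ∈ P` with `r a g = 1` is in `K a`: in the group `D / K a` its order divides a power of `p` and a power of `q a`.) `P` is commutative: `r a ([x, y]) = 1` for all `a` by CAB for `r a (P)`, so `[x, y] ∈ ⋂ K a = 1`. For `x ∈ P`: `d^(m!) x d^(-m!) x⁻¹ ∈ P` and `r a` of it is `1` by CPE for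
`A = r a (P)`, `X = r a d` (`(d a)! ∣ m!`), so it is `1`. Apply `f` for `x ∈ P` with `f x = u`: `f(d)^(m!) u f(d)^(-m!) = u`, and the left side is `u^(s^(m!))`. -/
def CCR_stmt : Prop := ∀ (p : ℕ) [Fact p.Prime] (m : ℕ) (D G' : Type) [Group D] [Finite D] [Group G'] (ι : Type) (q d : ι → ℕ) (κ : ι → Type)
  [∀ a, Field (κ a)] [∀ a, IsAlgClosed (κ a)] [∀ a, CharP (κ a) (q a)] (r : ∀ a, D →* GL (Fin (d a)) (κ a)) (K : ι → Subgroup D) (f : D →* G') (u t : G') (s : ℕ),
  m < p → (∀ a, d a ≤ m) → (∀ a, (q a).Prime ∧ q a ≠ p) → (∀ a, (K a).Normal) → (∀ g : D, (∀ a, g ∈ K a) → g = 1) →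
  (∀ a (g : D), r a g = 1 → ∃ k : ℕ, g ^ q a ^ k ∈ K a) → u ∈ f.range → t ∈ f.range → u ^ p = 1 → t * u * t⁻¹ = u ^ s →
  u ^ s ^ m.factorial = u

/-- **CLF** (short-medium; from CLW). The law at finite level. `D`, `r`, `K` as in CCR but `p` arbitrary (no condition `m < p`), `P` a subgroup of `D` which is a `p`-group: `x^(m!)` and `y^(m!)` commute for `x, y ∈ P`. The commutator `c = [x^(m!), y^(m!)]` is in `P`, `r a c = 1` by CLW for `r a (P)` (`(d a)! ∣ m!`: powers of commuting elements commute), so `c ∈ K a` (its order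
modulo `K a` divides powers of `p` and of `q a`), so `c = 1`. -/
def CLF_stmt : Prop := ∀ (p : ℕ) [Fact p.Prime] (m : ℕ) (D : Type) [Group D] [Finite D] (ι : Type) (q d : ι → ℕ) (κ : ι → Type)
  [∀ a, Field (κ a)] [∀ a, IsAlgClosed (κ a)] [∀ a, CharP (κ a) (q a)] (r : ∀ a, D →* GL (Fin (d a)) (κ a)) (K : ι → Subgroup D) (P : Subgroup D),
  (∀ a, d a ≤ m) → (∀ a, (q a).Prime ∧ q a ≠ p) → (∀ a, (K a).Normal) → (∀ g : D, (∀ a, g ∈ K a) → g = 1) →
  (∀ a (g : D), r a g = 1 → ∃ k : ℕ, g ^ q a ^ k ∈ K a) → (∀ g ∈ P, PE p g) →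
  ∀ x ∈ P, ∀ y ∈ P, x ^ m.factorial * y ^ m.factorial = y ^ m.factorial * x ^ m.factorial

/-- **CSL** (short-medium; only Mathlib). `D` finite, `N` normal in `D` such that `D / N` is a `p`-group (`x^(p^k) ∈ N`). For `x, y ∈ D` there are a `p`-subgroup `P` of `D` and `x', y' ∈ P` with `x⁻¹ x', y⁻¹ y' ∈ N`: a Sylow subgroup `P` maps onto `D / N` (its image has index dividing that of `P`, prime to `p`, and a power of `p`). -/
def CSL_stmt : Prop := ∀ (p : ℕ) [Fact p.Prime] (D : Type) [Group D] [Finite D] (N : Subgroup D), N.Normal → (∀ x : D, ∃ k : ℕ, x ^ p ^ k ∈ N) →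
  ∃ P : Subgroup D, (∀ g ∈ P, PE p g) ∧ ∀ x : D, ∃ x' ∈ P, x⁻¹ * x' ∈ N

end Pool.Agent.AX
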